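import Mathlib
import Pool.Agent.Work.MP_4329d7_ag.FDefs

/-!
Maps between rational function fields.
-/

namespace Pool.Agent.Work.MP_4329d7_ag_sq

open Polynomial Pool.Agent.Work.MP_4329d7_ag.FF

variable {E E' L : Type} [Field E] [Field E'] [Field L]

theorem ratFunc_hom_ext {f g : RatFunc E →+* L} (hC : ∀ e, f (RatFunc.C e) = g (RatFunc.C e))
    (hX : f RatFunc.X = g RatFunc.X) : f = g := by
  have h1 : f.comp (algebraMap E[X] (RatFunc E)) = g.comp (algebraMap E[X] (RatFunc E)) := by
    refine Polynomial.ringHom_ext (fun e => ?_) ?_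
    · simpa using hC e
    · simpa using hX
  exact IsLocalization.ringHom_ext (nonZeroDivisors E[X]) h1

/-- The homomorphism from `E(t)` given by `h` on `E` and an element `y` which is not a root of a
nonzero polynomial. -/
noncomputable def rlift (h : E →+* L) (y : L) (hy : ∀ p : E[X], p ≠ 0 → p.eval₂ h y ≠ 0) :
    RatFunc E →+* L :=
  RatFunc.liftRingHom (Polynomial.eval₂RingHom h y) (fun p hp => by
    rw [Submonoid.mem_comap]
    exact mem_nonZeroDivisors_of_ne_zero (hy p (nonZeroDivisors.ne_zero hp)))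

theorem rlift_X (h : E →+* L) (y : L) (hy : ∀ p : E[X], p ≠ 0 → p.eval₂ h y ≠ 0) :
    rlift h y hy RatFunc.X = y := by
  rw [rlift, ← RatFunc.algebraMap_X, RatFunc.liftRingHom_algebraMap]
  simp

theorem rlift_C (h : E →+* L) (y : L) (hy : ∀ p : E[X], p ≠ 0 → p.eval₂ h y ≠ 0) (e : E) :
    rlift h y hy (RatFunc.C e) = h e := by
  rw [rlift, ← RatFunc.algebraMap_C, RatFunc.liftRingHom_algebraMap]
  simp

theorem eval₂_X_ne_zero (h : E →+* E') (p : E[X]) (hp : p ≠ 0) :
    p.eval₂ ((RatFunc.C : E' →+* RatFunc E').comp h) RatFunc.X ≠ 0 := by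
  have h1 : p.eval₂ ((RatFunc.C : E' →+* RatFunc E').comp h) RatFunc.X =
      algebraMap E'[X] (RatFunc E') (p.map h) := by
    rw [← RatFunc.algebraMap_X, Polynomial.eval₂_eq_sum_range, Polynomial.map]
    rw [Polynomial.eval₂_eq_sum_range, map_sum]
    refine Finset.sum_congr rfl fun i _ => ?_
    simp
  rw [h1]
  intro h0
  apply hp
  have h2 : p.map h = 0 := by
    refine IsFractionRing.injective E'[X] (RatFunc E') ?_
    rw [h0, map_zero]
  exact (Polynomial.map_eq_zero h).1 h2

/-- The map `E(t) → E'(t)`. -/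
noncomputable def rmap (h : E →+* E') : RatFunc E →+* RatFunc E' :=
  rlift ((RatFunc.C : E' →+* RatFunc E').comp h) RatFunc.X (eval₂_X_ne_zero h)

@[simp] theorem rmap_X (h : E →+* E') : rmap h RatFunc.X = RatFunc.X := rlift_X _ _ _

@[simp] theorem rmap_C (h : E →+* E') (e : E) : rmap h (RatFunc.C e) = RatFunc.C (h e) :=
  rlift_C _ _ _ e

theorem rmap_algebraMap (h : E →+* E') (p : E[X]) :
    rmap h (algebraMap E[X] (RatFunc E) p) = algebraMap E'[X] (RatFunc E') (p.map h) := by
  have : (rmap h).comp (algebraMap E[X] (RatFunc E)) =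
      (algebraMap E'[X] (RatFunc E')).comp (Polynomial.mapRingHom h) := by
    refine Polynomial.ringHom_ext (fun e => ?_) ?_
    · simp
    · simp
  exact congrArg (fun f => f p) this

/-- The embedding `f(t) ↦ f(t₂)` of `E(t)` in `E(t₁)(t₂)`. -/
noncomputable def psi (E : Type) [Field E] : RatFunc E →+* RatFunc (RatFunc E) :=
  rmap (RatFunc.C : E →+* RatFunc E)

theorem isSecondVariable_psi : IsSecondVariable (psi E) := ⟨rmap_X _, fun e => rmap_C _ e⟩

/-- compatibility of the first embedding with base change. -/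
theorem rmap_rmap_C (h : E →+* E') (a : RatFunc E) :
    rmap (rmap h) (RatFunc.C a) = RatFunc.C (rmap h a) := rmap_C _ a

/-- compatibility of the second embedding with base change. -/
theorem rmap_rmap_psi (h : E →+* E') (a : RatFunc E) :
    rmap (rmap h) (psi E a) = psi E' (rmap h a) := by
  have : (rmap (rmap h)).comp (psi E) = (psi E').comp (rmap h) := by
    refine ratFunc_hom_ext (fun e => ?_) ?_
    · simp [psi]
    · simp [psi]
  exact congrArg (fun f => f a) this

section Alg

variable [Algebra ℂ E] [Algebra ℂ E']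

theorem algebraMap_ratFunc (c : ℂ) :
    algebraMap ℂ (RatFunc E) c = RatFunc.C (algebraMap ℂ E c) := by
  rw [IsScalarTower.algebraMap_apply ℂ E (RatFunc E)]
  rw [RatFunc.algebraMap_eq_C]

/-- The map `E(t) → E'(t)`. -/
noncomputable def rmapA (h : E →ₐ[ℂ] E') : RatFunc E →ₐ[ℂ] RatFunc E' :=
  { rmap (h : E →+* E') with
    commutes' := fun c => by
      change rmap (h : E →+* E') (algebraMap ℂ (RatFunc E) c) = _
      rw [algebraMap_ratFunc, rmap_C, algebraMap_ratFunc]
      simp }

theorem rmapA_apply (h : E →ₐ[ℂ] E') (a : RatFunc E) : rmapA h a = rmap (h : E →+* E') a := rfl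

/-- First embedding of `E(t)` in `E(t₁)(t₂)`. -/
noncomputable def CA (E : Type) [Field E] [Algebra ℂ E] : RatFunc E →ₐ[ℂ] RatFunc (RatFunc E) :=
  { (RatFunc.C : RatFunc E →+* RatFunc (RatFunc E)) with
    commutes' := fun c => (algebraMap_ratFunc (E := RatFunc E) c).symm }

theorem CA_apply (a : RatFunc E) : CA E a = RatFunc.C a := rfl

/-- Second embedding of `E(t)` in `E(t₁)(t₂)`. -/
noncomputable def psiA (E : Type) [Field E] [Algebra ℂ E] : RatFunc E →ₐ[ℂ] RatFunc (RatFunc E) :=
  { psi E with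
    commutes' := fun c => by
      change psi E (algebraMap ℂ (RatFunc E) c) = _
      rw [algebraMap_ratFunc, psi, rmap_C, algebraMap_ratFunc, algebraMap_ratFunc] }

theorem psiA_apply (a : RatFunc E) : psiA E a = psi E a := rfl

end Alg

end Pool.Agent.Work.MP_4329d7_ag_sq
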