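import Mathlib
import Pool.Agent.Work.MP_4329d7_ag.FF.RatExt
import Pool.Agent.Work.MP_4329d7_ag.FF.Rep_det

/-!
The bicanonical form `c (dx_1 ∧ … ∧ dx_n)^{⊗ 2}` and its regularity in terms of local coordinates.
-/

set_option linter.style.haveILetI false

open scoped WithZero

namespace Pool.Agent.Work.MP_4329d7_ag_sq

open Pool.Agent.Work.MP_4329d7_ag.FF

variable {K : Type} [Field K] [Algebra ℂ K] {ι : Type} [Fintype ι] [DecidableEq ι]

/-- The index set of the form. -/
noncomputable def idx (ι : Type) [Fintype ι] : Fin (2 * Fintype.card ι) ≃ Fin 2 × ι :=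
  finProdFinEquiv.symm.trans (Equiv.prodCongr (Equiv.refl _) (Fintype.equivFin ι).symm)

/-- `c (dx_1 ∧ … ∧ dx_n)^{⊗ 2}`. -/
noncomputable def biForm (x : ι → K) (c : K) : TensorForm K (2 * Fintype.card ι) :=
  ∑ ρ : Fin 2 → Equiv.Perm ι, (c * ∏ a, ((Equiv.Perm.sign (ρ a) : ℤ) : K)) •
    (MultilinearMap.mkPiAlgebra K (Fin (2 * Fintype.card ι)) K).compLinearMap
      (fun s => ratExt_ev (x (ρ (idx ι s).1 (idx ι s).2)))

theorem biForm_apply (x : ι → K) (c : K)
    (D : Fin (2 * Fintype.card ι) → Derivation ℂ K K) :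
    biForm x c D = c * ∏ a : Fin 2, Matrix.det (Matrix.of fun i j : ι =>
      D ((idx ι).symm (a, i)) (x j)) := by
  have h1 : ∀ a : Fin 2, Matrix.det (Matrix.of fun i j : ι => D ((idx ι).symm (a, i)) (x j)) =
      ∑ σ : Equiv.Perm ι, ((Equiv.Perm.sign σ : ℤ) : K) *
        ∏ i, D ((idx ι).symm (a, i)) (x (σ i)) := by
    intro a
    rw [← Matrix.det_transpose, Matrix.det_apply']
    rfl
  simp only [h1]
  rw [Finset.prod_univ_sum, Fintype.piFinset_univ, Finset.mul_sum, biForm, _root_.sum_apply]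
  refine Finset.sum_congr rfl fun ρ _ => ?_
  rw [_root_.smul_apply, MultilinearMap.compLinearMap_apply,
    MultilinearMap.mkPiAlgebra_apply, smul_eq_mul, Finset.prod_mul_distrib, ← mul_assoc]
  congr 1
  rw [← Equiv.prod_comp (idx ι).symm, Fintype.prod_prod_type]
  refine Finset.prod_congr rfl fun a _ => Finset.prod_congr rfl fun i _ => ?_
  rw [Equiv.apply_symm_apply]
  rfl

theorem biForm_ne_zero (x : ι → K) (hx : IsTranscendenceBasis ℂ x) (c : K) (hc : c ≠ 0) :
    biForm x c ≠ 0 := by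
  intro h0
  obtain ⟨Fr, hFr⟩ := ratExt_exists_frame x hx
  have h1 := congrArg (fun T : TensorForm K (2 * Fintype.card ι) =>
    T (fun s => Fr.d (idx ι s).2)) h0
  rw [biForm_apply] at h1
  have h2 : ∀ a : Fin 2, Matrix.det (Matrix.of fun i j : ι =>
      (Fr.d (idx ι ((idx ι).symm (a, i))).2) (x j)) = 1 := by
    intro a
    have h3 : (Matrix.of fun i j : ι => (Fr.d (idx ι ((idx ι).symm (a, i))).2) (x j)) = 1 := by
      ext i j
      rw [Matrix.of_apply, Equiv.apply_symm_apply, ← hFr, Fr.dual, Matrix.one_apply]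
    rw [h3, Matrix.det_one]
  simp only [h2, Finset.prod_const_one, mul_one] at h1
  exact hc h1

/-- Regularity at `v`, given local coordinates `z_j` and `ω_j` with `dx_j = ω_j dz_j / z_j`. -/
theorem biForm_regularAt (v : Valuation K ℤᵐ⁰) (x : ι → K) (c : K) (z ω : ι → K)
    (hz : ∀ j, z j ≠ 0) (hω : ∀ (j : ι) (D : Derivation ℂ K K), D (x j) = ω j * (D (z j) / z j))
    (hreg : ((∀ j, v (z j) = 1) ∧ v (c * ∏ j, ω j ^ 2) ≤ 1) ∨
      ∃ t, t ≠ 0 ∧ v t < 1 ∧ (∀ x, v x < 1 → v x ≤ v t) ∧ v (c * ∏ j, ω j ^ 2) ≤ v t ^ 2) :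
    IsRegularAt v (biForm x c) := by
  have hdet : ∀ D : ι → Derivation ℂ K K, Matrix.det (Matrix.of fun i j : ι => D i (x j)) =
      (∏ j, ω j) * Matrix.det (Matrix.of fun i j : ι => D i (z j) / z j) := by
    intro D
    rw [← Matrix.det_mul_row]
    congr 1
    ext i j
    simp only [Matrix.of_apply]
    exact hω j (D i)
  refine Rep.regularAt v _ ?_
  have hkey : ∀ D : Fin (2 * Fintype.card ι) → Derivation ℂ K K, biForm x c D =
      (c * ∏ j, ω j ^ 2) * ∏ a : Fin 2, Matrix.det (Matrix.of fun i j : ι =>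
        D ((idx ι).symm (a, i)) (z j) / z j) := by
    intro D
    rw [biForm_apply]
    have h1 : ∀ a : Fin 2, Matrix.det (Matrix.of fun i j : ι =>
        D ((idx ι).symm (a, i)) (x j)) = (∏ j, ω j) * Matrix.det (Matrix.of fun i j : ι =>
        D ((idx ι).symm (a, i)) (z j) / z j) := fun a => hdet _
    simp only [h1]
    rw [Finset.prod_mul_distrib, Finset.prod_const, Finset.card_univ, Fintype.card_fin,
      ← Finset.prod_pow, mul_assoc]
  have hρ : ∀ i : ι, ∃! r : ι, some r = some i := fun i => ⟨i, rfl, fun y hy => Option.some_injective _ hy⟩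
  rcases hreg with ⟨h1, h2⟩ | ⟨t, ht0, ht1, htmax, h2⟩
  · have h3 := det_log_unit v (fun r : ι => some r) hρ z h1 (fun _ _ => (0 : K)) (fun _ _ => by simp)
    have h4 := (Rep.block (S := Fin 2) v (T := fun _ => _) (fun _ => h3)).reindex v (idx ι).symm
    have h5 := Rep.smul v _ h2 h4
    convert h5 using 2 with D
    exact hkey D
  · have h3 := det_log v (fun r : ι => some r) hρ t ht0 ht1 htmax z hz (fun _ _ => (0 : K))
      (fun _ _ => by simp)
    have h4 := (Rep.block (S := Fin 2) v (T := fun _ => _) (fun _ => h3)).reindex v (idx ι).symm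
    have hvt : v t ≠ 0 := (v.ne_zero_iff).2 ht0
    have h6 : v ((c * ∏ j, ω j ^ 2) / t ^ 2) ≤ 1 := by
      rw [map_div₀, map_pow]
      exact div_le_one_of_le₀ h2 zero_le
    have h5 := Rep.smul v _ h6 h4
    convert h5 using 2 with D
    rw [hkey D]
    simp only [Finset.prod_mul_distrib, Finset.prod_const, Finset.card_univ, Fintype.card_fin]
    field_simp

omit [Algebra ℂ K] in
/-- a uniformizer of a nontrivial valuation. -/
theorem exists_uniformizer (v : Valuation K ℤᵐ⁰) {z : K} (hz0 : z ≠ 0) (hz : v z < 1) :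
    ∃ t, t ≠ 0 ∧ v t < 1 ∧ ∀ x, v x < 1 → v x ≤ v t := by
  classical
  have hlog : ∀ x : K, x ≠ 0 → v x = WithZero.exp (WithZero.log (v x)) := fun x hx =>
    (WithZero.exp_log ((v.ne_zero_iff).2 hx)).symm
  have hneg : ∀ x : K, x ≠ 0 → (v x < 1 ↔ WithZero.log (v x) < 0) := by
    intro x hx
    conv_lhs => rw [hlog x hx, ← WithZero.exp_zero, WithZero.exp_lt_exp]
  have hex : ∃ n : ℕ, ∃ x : K, x ≠ 0 ∧ v x < 1 ∧ (n : ℤ) = -WithZero.log (v x) := by
    refine ⟨(-WithZero.log (v z)).toNat, z, hz0, hz, ?_⟩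
    have := (hneg z hz0).1 hz
    omega
  obtain ⟨t, ht0, ht1, htn⟩ := Nat.find_spec hex
  refine ⟨t, ht0, ht1, fun x hx => ?_⟩
  by_cases hx0 : x = 0
  · rw [hx0, map_zero]; exact zero_le
  rw [hlog x hx0, hlog t ht0, WithZero.exp_le_exp]
  by_contra hcon
  push Not at hcon
  have h1 := (hneg x hx0).1 hx
  have h2 : (-WithZero.log (v x)).toNat < Nat.find hex := by omega
  exact Nat.find_min hex h2 ⟨x, hx0, hx, by omega⟩

end Pool.Agent.Work.MP_4329d7_ag_sq
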