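import Mathlib
import Pool.Agent.Work.MP_4329d7_ag_sq.Form

/-!
The bicanonical form is regular when all coordinates have at least four branch points.
-/

set_option linter.style.haveILetI false

open scoped WithZero

namespace Pool.Agent.Work.MP_4329d7_ag_sq

open Pool.Agent.Work.MP_4329d7_ag.FF Polynomial

variable {K : Type} [Field K] [Algebra ℂ K] {ι : Type} [Fintype ι] [DecidableEq ι]

/-- `z` is an `N`-th root of the product of the `f_i(x_i)`. -/
def IsRad (N : ℕ) (x : ι → K) (z : K) (f : ι → ℂ[X]) : Prop :=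
  (∀ i, f i ≠ 0) ∧ z ^ N = ∏ i, aeval (x i) (f i)

section Val

variable (v : Valuation K ℤᵐ⁰) (hv : ∀ c : ℂ, v (algebraMap ℂ K c) ≤ 1)
include hv

theorem val_const {c : ℂ} (hc : c ≠ 0) : v (algebraMap ℂ K c) = 1 := by
  refine le_antisymm (hv c) ?_
  have h0 : algebraMap ℂ K c ≠ 0 := fun h => hc ((algebraMap ℂ K).injective (by rw [h, map_zero]))
  have h1 := hv c⁻¹
  rw [map_inv₀, map_inv₀] at h1
  exact (inv_le_one₀ (zero_lt_iff.2 ((v.ne_zero_iff).2 h0))).1 h1

theorem val_poly_prod (x : K) {f : ℂ[X]} (hf : f ≠ 0) :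
    v (aeval x f) = (f.roots.map (fun a => v (x - algebraMap ℂ K a))).prod := by
  have h1 : f = C f.leadingCoeff * (f.roots.map (fun a => X - C a)).prod :=
    (IsAlgClosed.splits f).eq_prod_roots
  conv_lhs => rw [h1]
  rw [map_mul, aeval_C, map_mul, val_const v hv (leadingCoeff_ne_zero.2 hf), one_mul,
    map_multiset_prod, map_multiset_prod, Multiset.map_map, Multiset.map_map]
  congr 1
  refine Multiset.map_congr rfl fun a _ => ?_
  simp

theorem val_poly_unit (x : K) {f : ℂ[X]} (hf : f ≠ 0)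
    (hx : ∀ a, v (x - algebraMap ℂ K a) = 1) : v (aeval x f) = 1 := by
  rw [val_poly_prod v hv x hf]
  refine Multiset.prod_eq_one fun y hy => ?_
  obtain ⟨a, -, rfl⟩ := Multiset.mem_map.1 hy
  exact hx a

theorem val_sub_inf {x : K} (hx : 1 < v x) (a : ℂ) : v (x - algebraMap ℂ K a) = v x :=
  Valuation.map_sub_eq_of_lt_left v ((hv a).trans_lt hx)

theorem val_poly_inf {x : K} {f : ℂ[X]} (hf : f ≠ 0) (hx : 1 < v x) :
    v (aeval x f) = v x ^ f.natDegree := by
  rw [val_poly_prod v hv x hf, (IsAlgClosed.splits f).natDegree_eq_card_roots]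
  have h1 : f.roots.map (fun a => v (x - algebraMap ℂ K a)) = f.roots.map (fun _ => v x) :=
    Multiset.map_congr rfl fun a _ => val_sub_inf v hv hx a
  rw [h1, Multiset.map_const', Multiset.prod_replicate]

theorem val_sub_of_center {x : K} {P Q : ℂ} (hP : v (x - algebraMap ℂ K P) < 1) (hPQ : Q ≠ P) :
    v (x - algebraMap ℂ K Q) = 1 := by
  have h1 : x - algebraMap ℂ K Q = (x - algebraMap ℂ K P) + algebraMap ℂ K (P - Q) := by
    rw [map_sub]; ring
  have h2 : v (algebraMap ℂ K (P - Q)) = 1 := val_const v hv (sub_ne_zero.2 hPQ.symm)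
  rw [h1, Valuation.map_add_eq_of_lt_right v (by rw [h2]; exact hP), h2]

theorem val_poly_center {x : K} {P : ℂ} {f : ℂ[X]} (hf : f ≠ 0)
    (hP : v (x - algebraMap ℂ K P) < 1) :
    v (aeval x f) = v (x - algebraMap ℂ K P) ^ (f.rootMultiplicity P) := by
  classical
  rw [val_poly_prod v hv x hf, ← Polynomial.count_roots]
  have h1 : ∀ s : Multiset ℂ, (s.map (fun a => v (x - algebraMap ℂ K a))).prod =
      v (x - algebraMap ℂ K P) ^ (s.count P) := by
    intro s
    induction s using Multiset.induction_on with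
    | empty => simp
    | cons a s ih =>
      rw [Multiset.map_cons, Multiset.prod_cons, ih]
      by_cases ha : a = P
      · rw [ha, Multiset.count_cons_self, pow_succ, mul_comm]
      · rw [Multiset.count_cons_of_ne (Ne.symm ha), val_sub_of_center v hv hP ha, one_mul]
  exact h1 _

end Val

/-- The branch condition on the coordinate `j`: at least four branch points. -/
def FourBranch (N : ℕ) (x : ι → K) (j : ι) (B : Finset ℂ) (b : Bool) : Prop :=
  (∀ P ∈ B, ∃ (z : K) (f : ι → ℂ[X]), IsRad N x z f ∧ ¬ N ∣ (f j).rootMultiplicity P) ∧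
  (b = true → ∃ (z : K) (f : ι → ℂ[X]), IsRad N x z f ∧ ¬ N ∣ (f j).natDegree) ∧
  (3 ≤ B.card ∧ (b = false → 4 ≤ B.card))

/-- local coordinates. -/
theorem exists_local (v : Valuation K ℤᵐ⁰) (hv : ∀ c : ℂ, v (algebraMap ℂ K c) ≤ 1) (x : K)
    (hx : Transcendental ℂ x) (B : Finset ℂ) (b : Bool) (hB : 3 ≤ B.card ∧ (b = false → 4 ≤ B.card)) :
    ∃ z ω : K, z ≠ 0 ∧ (∀ D : Derivation ℂ K K, D x = ω * (D z / z)) ∧ v z ≤ 1 ∧
      v ((∏ P ∈ B, (x - algebraMap ℂ K P))⁻¹ * ω ^ 2) ≤ v z ∧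
      (v z = 1 → ∀ f : ℂ[X], f ≠ 0 → v (aeval x f) = 1) ∧
      (v ((∏ P ∈ B, (x - algebraMap ℂ K P))⁻¹ * ω ^ 2) ≤ v z ^ 2 ∨
        (∃ P ∈ B, ∀ f : ℂ[X], f ≠ 0 → v (aeval x f) = v z ^ (f.rootMultiplicity P)) ∨
        (b = true ∧ ∀ f : ℂ[X], f ≠ 0 → v (aeval x f) = (v z)⁻¹ ^ f.natDegree)) := by
  classical
  have hne : ∀ P : ℂ, x - algebraMap ℂ K P ≠ 0 := by
    intro P h
    apply hx
    rw [sub_eq_zero] at h
    rw [h]
    exact isAlgebraic_algebraMap P
  rcases le_or_gt (v x) 1 with h1 | h1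
  · by_cases h2 : ∃ P : ℂ, v (x - algebraMap ℂ K P) < 1
    · obtain ⟨P, hP⟩ := h2
      have hcoef : v (∏ Q ∈ B, (x - algebraMap ℂ K Q)) =
          if P ∈ B then v (x - algebraMap ℂ K P) else 1 := by
        rw [map_prod]
        split_ifs with hPB
        · rw [← Finset.mul_prod_erase _ _ hPB, Finset.prod_eq_one, mul_one]
          intro Q hQ
          exact val_sub_of_center v hv hP (Finset.ne_of_mem_erase hQ)
        · refine Finset.prod_eq_one fun Q hQ => val_sub_of_center v hv hP ?_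
          rintro rfl
          exact hPB hQ
      have hvz : v (x - algebraMap ℂ K P) ≠ 0 := (v.ne_zero_iff).2 (hne P)
      refine ⟨x - algebraMap ℂ K P, x - algebraMap ℂ K P, hne P, fun D => ?_, hP.le, ?_,
        fun h => absurd h hP.ne, ?_⟩
      · rw [mul_div_cancel₀ _ (hne P), map_sub, Derivation.map_algebraMap, sub_zero]
      · rw [map_mul, map_inv₀, hcoef, map_pow]
        split_ifs
        · rw [pow_two, ← mul_assoc, inv_mul_cancel₀ hvz, one_mul]
        · rw [inv_one, one_mul, pow_two]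
          exact mul_le_of_le_one_right' hP.le
      · by_cases hPB : P ∈ B
        · exact Or.inr (Or.inl ⟨P, hPB, fun f hf => val_poly_center v hv hf hP⟩)
        · left
          rw [map_mul, map_inv₀, hcoef, map_pow, if_neg hPB, inv_one, one_mul]
    · push Not at h2
      have h3 : ∀ P : ℂ, v (x - algebraMap ℂ K P) = 1 := by
        intro P
        refine le_antisymm ?_ (h2 P)
        exact (v.map_sub _ _).trans (max_le h1 (hv P))
      have hx1 : v x = 1 := by simpa using h3 0
      have hx0 : x ≠ 0 := by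
        intro h0
        rw [h0, map_zero] at hx1
        exact zero_ne_one hx1
      have h4 : v ((∏ P ∈ B, (x - algebraMap ℂ K P))⁻¹ * x ^ 2) = 1 := by
        rw [map_mul, map_inv₀, map_prod, Finset.prod_eq_one (fun P _ => h3 P), map_pow, hx1]
        simp
      refine ⟨x, x, hx0, fun D => (mul_div_cancel₀ _ hx0).symm, h1, ?_, fun _ f hf =>
        val_poly_unit v hv x hf h3, Or.inl ?_⟩
      · rw [h4, hx1]
      · rw [h4, hx1, one_pow]
  · have hx0 : x ≠ 0 := by
      intro h0
      rw [h0, map_zero] at h1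
      exact absurd h1 (by simp)
    have hvx : v x ≠ 0 := (v.ne_zero_iff).2 hx0
    have hlt : (v x)⁻¹ < 1 := (inv_lt_one₀ (zero_lt_iff.2 hvx)).2 h1
    have hcoef : v (∏ Q ∈ B, (x - algebraMap ℂ K Q)) = v x ^ B.card := by
      rw [map_prod, Finset.prod_congr rfl (fun Q _ => val_sub_inf v hv h1 Q), Finset.prod_const]
    have hval : v ((∏ P ∈ B, (x - algebraMap ℂ K P))⁻¹ * (-x) ^ 2) = (v x)⁻¹ ^ (B.card - 2) := by
      rw [map_mul, map_inv₀, hcoef, map_pow, Valuation.map_neg]
      obtain ⟨k, hk⟩ : ∃ k, B.card = k + 2 := ⟨B.card - 2, by omega⟩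
      rw [hk, Nat.add_sub_cancel, pow_add, mul_inv, mul_assoc, inv_mul_cancel₀ (pow_ne_zero 2 hvx),
        mul_one, inv_pow]
    refine ⟨x⁻¹, -x, inv_ne_zero hx0, fun D => ?_, by rw [map_inv₀]; exact hlt.le, ?_, ?_, ?_⟩
    · rw [Derivation.leibniz_inv]
      simp only [smul_eq_mul, neg_mul]
      field_simp
    · rw [hval, map_inv₀]
      calc (v x)⁻¹ ^ (B.card - 2) ≤ (v x)⁻¹ ^ 1 := pow_le_pow_right_of_le_one' hlt.le (by omega)
        _ = _ := pow_one _
    · intro h
      rw [map_inv₀] at h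
      exact absurd h hlt.ne
    · cases hb : b with
      | false =>
        left
        rw [hval, map_inv₀]
        have := hB.2 hb
        exact pow_le_pow_right_of_le_one' hlt.le (by omega)
      | true =>
        right; right
        refine ⟨rfl, fun f hf => ?_⟩
        rw [map_inv₀, inv_inv]
        exact val_poly_inf v hv hf h1

theorem terminal {N : ℕ} (x : ι → K) (hx : IsTranscendenceBasis ℂ x)
    (B : ι → Finset ℂ) (b : ι → Bool) (hbr : ∀ j, FourBranch N x j (B j) (b j)) :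
    ∃ T : TensorForm K (2 * Fintype.card ι), IsRegular T ∧ T ≠ 0 := by
  classical
  have htr : ∀ j, Transcendental ℂ (x j) := fun j => hx.1.transcendental j
  have hne : ∀ j (P : ℂ), x j - algebraMap ℂ K P ≠ 0 := by
    intro j P h
    apply htr j
    rw [sub_eq_zero] at h
    rw [h]
    exact isAlgebraic_algebraMap P
  set c : K := ∏ j, (∏ P ∈ B j, (x j - algebraMap ℂ K P))⁻¹ with hc
  have hc0 : c ≠ 0 := Finset.prod_ne_zero_iff.2 fun j _ =>
    inv_ne_zero (Finset.prod_ne_zero_iff.2 fun P _ => hne j P)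
  refine ⟨biForm x c, ?_, biForm_ne_zero x hx c hc0⟩
  intro v hv
  have hloc := fun j => exists_local v hv (x j) (htr j) (B j) (b j) (hbr j).2.2
  choose z ω hz0 hω hz1 hle hunit halt using hloc
  refine biForm_regularAt v x c z ω hz0 hω ?_
  have hprod : c * ∏ j, ω j ^ 2 = ∏ j, ((∏ P ∈ B j, (x j - algebraMap ℂ K P))⁻¹ * ω j ^ 2) := by
    rw [hc, ← Finset.prod_mul_distrib]
  set θ : ι → K := fun j => (∏ P ∈ B j, (x j - algebraMap ℂ K P))⁻¹ * ω j ^ 2 with hθ
  have hθ1 : ∀ j, v (θ j) ≤ 1 := fun j => (hle j).trans (hz1 j)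
  rw [hprod]
  by_cases hall : ∀ j, v (z j) = 1
  · left
    refine ⟨hall, ?_⟩
    rw [map_prod]
    exact Finset.prod_le_one' fun j _ => hθ1 j
  right
  push Not at hall
  obtain ⟨j0, hj0⟩ := hall
  have hj0' : v (z j0) < 1 := lt_of_le_of_ne (hz1 j0) hj0
  obtain ⟨t, ht0, ht1, htmax⟩ := exists_uniformizer v (hz0 j0) hj0'
  have hvt : v t ≠ 0 := (v.ne_zero_iff).2 ht0
  refine ⟨t, ht0, ht1, htmax, ?_⟩
  rw [map_prod, ← Finset.mul_prod_erase _ _ (Finset.mem_univ j0)]
  by_cases hother : ∃ j1, j1 ≠ j0 ∧ v (z j1) < 1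
  · obtain ⟨j1, hj1, hj1'⟩ := hother
    rw [← Finset.mul_prod_erase _ _ (Finset.mem_erase.2 ⟨hj1, Finset.mem_univ j1⟩), ← mul_assoc]
    refine (mul_le_of_le_one_right' (Finset.prod_le_one' fun j _ => hθ1 j)).trans ?_
    exact (mul_le_mul' ((hle j0).trans (htmax _ hj0')) ((hle j1).trans (htmax _ hj1'))).trans_eq
      (pow_two _).symm
  push Not at hother
  have hoth : ∀ j, j ≠ j0 → v (z j) = 1 := fun j hj => le_antisymm (hz1 j) (hother j hj)
  refine (mul_le_of_le_one_right' (Finset.prod_le_one' fun j _ => hθ1 j)).trans ?_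
  -- the value of `z j0` is at most the square of that of `t`
  have hsq : v (z j0) ≤ v t → v (z j0) ≠ v t → v (z j0) ≤ v t ^ 2 := by
    intro h1 h2
    obtain ⟨n, e, he, hze⟩ := repdet_exists_zpow v ht0 ht1 htmax (hz0 j0)
    have h3 : v (z j0) = v t ^ n := by rw [hze, map_mul, he, mul_one, map_zpow₀]
    have h4 : 2 ≤ n := by
      by_contra hcon
      have h5 : n ≤ 1 := by omega
      rcases h5.lt_or_eq with h6 | h6
      · have h7 : v t ^ (0 : ℤ) ≤ v t ^ n :=
          zpow_right_anti₀ (zero_lt_iff.2 hvt) ht1.le (by omega)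
        rw [zpow_zero, ← h3] at h7
        exact absurd h7 (not_le.2 hj0')
      · rw [h6, zpow_one] at h3
        exact h2 h3
    rw [h3]
    have h8 : v t ^ n ≤ v t ^ (2 : ℤ) := zpow_right_anti₀ (zero_lt_iff.2 hvt) ht1.le h4
    exact_mod_cast h8
  -- ramification
  have hram : ∀ (y : K) (f : ι → ℂ[X]) (m : ℤ), IsRad N x y f →
      v (aeval (x j0) (f j0)) = v (z j0) ^ m → ¬ (N : ℤ) ∣ m → v (z j0) ≠ v t := by
    intro y f m hy hval hm heq
    have h1 : v y ^ N = v (z j0) ^ m := by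
      rw [← map_pow, hy.2, map_prod, ← Finset.mul_prod_erase _ _ (Finset.mem_univ j0), hval,
        Finset.prod_eq_one, mul_one]
      intro j hj
      exact hunit j (hoth j (Finset.ne_of_mem_erase hj)) _ (hy.1 j)
    have hy0 : y ≠ 0 := by
      intro h0
      have h2 : v y ^ N ≠ 0 := by
        rw [h1]
        exact zpow_ne_zero _ ((v.ne_zero_iff).2 (hz0 j0))
      rw [h0, map_zero] at h2
      rcases Nat.eq_zero_or_pos N with hN | hN
      · -- `N = 0`
        rw [h0, map_zero, hN, pow_zero, heq] at h1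
        apply hm
        have h3 : m = 0 := by
          by_contra hm0
          have h4 : v t ^ m ≠ 1 := by
            intro h5
            rcases lt_or_gt_of_ne hm0 with h6 | h6
            · have := one_lt_zpow_of_neg₀ (zero_lt_iff.2 hvt) ht1 h6
              rw [h5] at this
              exact lt_irrefl _ this
            · have := zpow_lt_one₀ (zero_lt_iff.2 hvt) ht1 h6
              rw [h5] at this
              exact lt_irrefl _ this
          exact h4 h1.symm
        rw [h3]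
        exact dvd_zero _
      · exact h2 (zero_pow hN.ne')
    obtain ⟨n, e, he, hye⟩ := repdet_exists_zpow v ht0 ht1 htmax hy0
    have h3 : v y = v t ^ n := by rw [hye, map_mul, he, mul_one, map_zpow₀]
    rw [h3, heq, ← zpow_natCast, ← zpow_mul] at h1
    apply hm
    have h4 : n * N = m := by
      have hinj := zpow_right_injective₀ (zero_lt_iff.2 hvt) ht1.ne
      exact hinj h1
    exact ⟨n, by rw [← h4]; ring⟩
  rcases halt j0 with h1 | ⟨P, hP, h1⟩ | ⟨hb, h1⟩
  · refine h1.trans ?_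
    exact pow_le_pow_left' (htmax _ hj0') 2
  · obtain ⟨y, f, hy, hf⟩ := (hbr j0).1 P hP
    refine (hle j0).trans (hsq (htmax _ hj0') ?_)
    refine hram y f ((f j0).rootMultiplicity P) hy ?_ ?_
    · rw [h1 _ (hy.1 j0), zpow_natCast]
    · exact_mod_cast hf
  · obtain ⟨y, f, hy, hf⟩ := (hbr j0).2.1 hb
    refine (hle j0).trans (hsq (htmax _ hj0') ?_)
    refine hram y f (-((f j0).natDegree : ℤ)) hy ?_ ?_
    · rw [h1 _ (hy.1 j0), zpow_neg, zpow_natCast, inv_pow]
    · rw [dvd_neg]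
      exact_mod_cast hf

end Pool.Agent.Work.MP_4329d7_ag_sq
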