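import Mathlib
import Pool.Agent.Work.MP_4329d7_ag_sq.Terminal

/-!
Elementary algebra for the reduction step.
-/

set_option linter.style.haveILetI false

namespace Pool.Agent.Work.MP_4329d7_ag_sq

open Polynomial

/-- A polynomial is an `N`-th power times its part at the branch points. -/
theorem decomp {N : ℕ} (hN : 0 < N) {f : ℂ[X]} (hf : f ≠ 0) (B : Finset ℂ)
    (h : ∀ P, P ∉ B → N ∣ f.rootMultiplicity P) :
    ∃ g : ℂ[X], g ≠ 0 ∧ f = g ^ N * ∏ P ∈ B, (X - C P) ^ f.rootMultiplicity P := by
  classical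
  obtain ⟨c, hc⟩ := IsAlgClosed.exists_pow_nat_eq f.leadingCoeff hN
  have hc0 : c ≠ 0 := by
    rintro rfl
    rw [zero_pow hN.ne'] at hc
    exact (leadingCoeff_ne_zero.2 hf) hc.symm
  choose k hk using h
  set k' : ℂ → ℕ := fun P => if hP : P ∉ B then k P hP else 0 with hk'
  set R := f.roots.toFinset with hR
  refine ⟨C c * ∏ P ∈ R \ B, (X - C P) ^ k' P, ?_, ?_⟩
  · refine mul_ne_zero (C_ne_zero.2 hc0) (Finset.prod_ne_zero_iff.2 fun P _ => ?_)
    exact pow_ne_zero _ (X_sub_C_ne_zero P)
  · have h1 : f = C f.leadingCoeff * (f.roots.map (fun a => X - C a)).prod :=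
      (IsAlgClosed.splits f).eq_prod_roots
    rw [prod_multiset_root_eq_finset_root] at h1
    have h2 : ∏ a ∈ R, (X - C a : ℂ[X]) ^ rootMultiplicity a f =
        ∏ a ∈ R ∪ B, (X - C a : ℂ[X]) ^ rootMultiplicity a f := by
      refine Finset.prod_subset Finset.subset_union_left fun a _ ha => ?_
      have h3 : a ∉ f.roots := fun h => ha (Multiset.mem_toFinset.2 h)
      have h4 : f.rootMultiplicity a = 0 := by
        rw [← Polynomial.count_roots]
        exact Multiset.count_eq_zero.2 h3
      rw [h4, pow_zero]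
    have h5 : R ∪ B = (R \ B) ∪ B := (Finset.sdiff_union_self_eq_union).symm
    have h6 : ∏ a ∈ R \ B, (X - C a : ℂ[X]) ^ rootMultiplicity a f =
        (∏ P ∈ R \ B, (X - C P) ^ k' P) ^ N := by
      rw [← Finset.prod_pow]
      refine Finset.prod_congr rfl fun a ha => ?_
      have ha' : a ∉ B := (Finset.mem_sdiff.1 ha).2
      rw [← pow_mul, hk a ha', hk']
      simp only [dif_pos ha']
      rw [mul_comm]
    rw [mul_pow, ← map_pow, hc, ← h6, mul_assoc, ← Finset.prod_union Finset.sdiff_disjoint, ← h5,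
      ← h2]
    exact h1

/-- degree of the branch part. -/
theorem decomp_natDegree {N : ℕ} {f g : ℂ[X]} (hg : g ≠ 0) (B : Finset ℂ) (m : ℂ → ℕ)
    (h : f = g ^ N * ∏ P ∈ B, (X - C P) ^ m P) :
    f.natDegree = N * g.natDegree + ∑ P ∈ B, m P := by
  rw [h, natDegree_mul (pow_ne_zero _ hg) (Finset.prod_ne_zero_iff.2 fun P _ =>
    pow_ne_zero _ (X_sub_C_ne_zero P)), natDegree_pow, natDegree_prod _ _ (fun P _ =>
    pow_ne_zero _ (X_sub_C_ne_zero P))]
  congr 1
  refine Finset.sum_congr rfl fun P _ => ?_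
  rw [natDegree_pow, natDegree_X_sub_C, mul_one]

/-- The Klein four group. -/
theorem klein {G : Type} [AddCommGroup G] (U : AddSubgroup (G × G))
    (htri : ∀ u ∈ U, u.1 = 0 ∨ u.2 = 0 ∨ u.1 + u.2 = 0) (h1 : ∃ u ∈ U, u.1 ≠ 0)
    (h2 : ∃ u ∈ U, u.2 ≠ 0) (h3 : ∃ u ∈ U, u.1 + u.2 ≠ 0) :
    ∃ h : G, h ≠ 0 ∧ h + h = 0 ∧ (h, 0) ∈ U ∧ (0, h) ∈ U ∧
      ∀ u ∈ U, (u.1 = 0 ∨ u.1 = h) ∧ (u.2 = 0 ∨ u.2 = h) := by
  -- the final step, from two elements on the axes
  have fin : ∀ a b : G, a ≠ 0 → b ≠ 0 → (a, 0) ∈ U → (0, b) ∈ U → ∃ h : G, h ≠ 0 ∧ h + h = 0 ∧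
      (h, 0) ∈ U ∧ (0, h) ∈ U ∧ ∀ u ∈ U, (u.1 = 0 ∨ u.1 = h) ∧ (u.2 = 0 ∨ u.2 = h) := by
    intro a b ha hb haU hbU
    have e1 : a + b = 0 := by
      rcases htri _ (U.add_mem haU hbU) with h | h | h
      · simp at h; exact absurd h ha
      · simp at h; exact absurd h hb
      · simpa using h
    have e2 : a - b = 0 := by
      rcases htri _ (U.sub_mem haU hbU) with h | h | h
      · simp at h; exact absurd h ha
      · simp at h; exact absurd h hb
      · simpa [sub_eq_add_neg] using h
    have e3 : b = a := (sub_eq_zero.1 e2).symm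
    subst e3
    refine ⟨b, ha, e1, haU, hbU, fun u hu => ?_⟩
    have hneg : -b = b := neg_eq_of_add_eq_zero_right e1
    have q1 := htri _ (U.add_mem hu haU)
    have q2 := htri _ (U.add_mem hu hbU)
    have q3 := htri _ (U.add_mem (U.add_mem hu haU) hbU)
    have q0 := htri _ hu
    simp only [Prod.fst_add, Prod.snd_add, add_zero] at q1 q2 q3
    have r1 : ∀ c : G, c + b = 0 → c = b := fun c hc => by
      rw [← hneg]; exact eq_neg_of_add_eq_zero_left hc
    constructor
    · rcases q0 with h | h | h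
      · exact Or.inl h
      · rw [h, zero_add] at q2
        rcases q2 with h' | h' | h'
        · exact Or.inl h'
        · exact absurd h' hb
        · exact Or.inr (r1 _ h')
      · rcases q1 with h' | h' | h'
        · exact Or.inr (r1 _ h')
        · rw [h', add_zero] at h
          exact Or.inl h
        · have : u.1 + b + u.2 = b := by rw [add_right_comm, h, zero_add]
          rw [this] at h'
          exact absurd h' hb
    · rcases q0 with h | h | h
      · rw [h, zero_add] at q1
        rcases q1 with h' | h' | h'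
        · exact absurd h' hb
        · exact Or.inl h'
        · rw [add_comm] at h'
          exact Or.inr (r1 _ h')
      · exact Or.inl h
      · rcases q2 with h' | h' | h'
        · rw [h', zero_add] at h
          exact Or.inl h
        · exact Or.inr (r1 _ h')
        · have : u.1 + (u.2 + b) = b := by rw [← add_assoc, h, zero_add]
          rw [this] at h'
          exact absurd h' hb
  -- an element on the first axis and one on the antidiagonal
  have c1 : ∀ a b : G, a ≠ 0 → b ≠ 0 → (a, 0) ∈ U → (-b, b) ∈ U → (0, a) ∈ U := by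
    intro a b ha hb haU hbU
    have hs := U.add_mem haU hbU
    rcases htri _ hs with h | h | h
    · simp only [Prod.fst_add] at h
      have : b = a := by
        have := eq_neg_of_add_eq_zero_left h
        rw [neg_neg] at this
        exact this.symm
      rw [this] at hs
      simpa using hs
    · simp at h; exact absurd h hb
    · simp at h; exact absurd h ha
  have c2 : ∀ a b : G, a ≠ 0 → b ≠ 0 → (0, a) ∈ U → (-b, b) ∈ U → (a, 0) ∈ U := by
    intro a b ha hb haU hbU
    have hbU' : (b, -b) ∈ U := by simpa using U.neg_mem hbU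
    have hs := U.add_mem haU hbU'
    rcases htri _ hs with h | h | h
    · simp at h; exact absurd h hb
    · simp only [Prod.snd_add] at h
      have : b = a := by
        have := eq_neg_of_add_eq_zero_left h
        rw [neg_neg] at this
        exact this.symm
      rw [this] at hs
      simpa using hs
    · simp at h; exact absurd h ha
  obtain ⟨u, hu, hu1⟩ := h1
  obtain ⟨w, hw, hw2⟩ := h2
  obtain ⟨c, hc, hc3⟩ := h3
  have anti : ∀ v : G × G, v ∈ U → v.1 + v.2 = 0 → (-v.2, v.2) ∈ U := by
    intro v hv h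
    rw [← eq_neg_of_add_eq_zero_left h]
    exact hv
  rcases htri _ hu with h | h | h
  · exact absurd h hu1
  · -- `u` on the first axis
    have huU : (u.1, 0) ∈ U := by rw [← h]; exact hu
    rcases htri _ hw with h' | h' | h'
    · have hwU : (0, w.2) ∈ U := by rw [← h']; exact hw
      exact fin _ _ hu1 hw2 huU hwU
    · exact absurd h' hw2
    · exact fin _ _ hu1 hu1 huU (c1 _ _ hu1 hw2 huU (anti _ hw h'))
  · have hu2 : u.2 ≠ 0 := by
      intro h0
      rw [h0, add_zero] at h
      exact hu1 h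
    have hanti := anti _ hu h
    rcases htri _ hc with h' | h' | h'
    · have hc2 : c.2 ≠ 0 := by
        intro h0
        rw [h', h0, add_zero] at hc3
        exact hc3 rfl
      have hcU : (0, c.2) ∈ U := by rw [← h']; exact hc
      exact fin _ _ hc2 hc2 (c2 _ _ hc2 hu2 hcU hanti) hcU
    · have hc1 : c.1 ≠ 0 := by
        intro h0
        rw [h', h0, add_zero] at hc3
        exact hc3 rfl
      have hcU : (c.1, 0) ∈ U := by rw [← h']; exact hc
      exact fin _ _ hc1 hc1 hcU (c1 _ _ hc1 hu2 hcU hanti)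
    · exact absurd h' hc3

/-- subgroups of the integers containing `N`. -/
theorem exists_gen (A : AddSubgroup ℤ) {N : ℕ} (hN : 0 < N) (h : (N : ℤ) ∈ A) :
    ∃ d : ℕ, 0 < d ∧ (d : ℤ) ∈ A ∧ ∀ a ∈ A, (d : ℤ) ∣ a := by
  classical
  have hex : ∃ d : ℕ, 0 < d ∧ (d : ℤ) ∈ A := ⟨N, hN, h⟩
  obtain ⟨h1, h2⟩ := Nat.find_spec hex
  refine ⟨Nat.find hex, h1, h2, fun a ha => ?_⟩
  set d := Nat.find hex with hd
  have hd0 : (0 : ℤ) < d := by exact_mod_cast h1
  have h3 : a % d ∈ A := by
    have h4 : a % d = a - (a / d) • (d : ℤ) := by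
      rw [smul_eq_mul, mul_comm]
      have := Int.emod_add_mul_ediv a d
      linarith
    rw [h4]
    exact A.sub_mem ha (A.zsmul_mem h2 _)
  have h5 := Int.emod_nonneg a hd0.ne'
  have h6 := Int.emod_lt_of_pos a hd0
  by_contra hcon
  have h7 : a % d ≠ 0 := fun h => hcon (Int.dvd_of_emod_eq_zero h)
  have h8 : (a % d).toNat < Nat.find hex := by omega
  refine Nat.find_min hex h8 ⟨by omega, ?_⟩
  rw [Int.toNat_of_nonneg h5]
  exact h3

end Pool.Agent.Work.MP_4329d7_ag_sq
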