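import Mathlib

/-!
Conics over the rational function field in one variable over an algebraically closed field of
characteristic zero have points (Legendre descent).
-/

namespace Pool.Agent.Work.MP_4329d7_ag_sq

open Polynomial

section Abstract

variable {M : Type} [Field M]

/-- The conic `a Y² + b Z² = 1` has a point. -/
def Solv (a b : M) : Prop := ∃ Y Z : M, a * Y ^ 2 + b * Z ^ 2 = 1

theorem Solv.symm {a b : M} (h : Solv a b) : Solv b a := by
  obtain ⟨Y, Z, h⟩ := h
  exact ⟨Z, Y, by rw [← h]; ring⟩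

theorem Solv.of_mul_sq {a b c : M} (h : Solv (a * c ^ 2) b) : Solv a b := by
  obtain ⟨Y, Z, h⟩ := h
  exact ⟨c * Y, Z, by rw [← h]; ring⟩

theorem Solv.mul_sq {a b c : M} (hc : c ≠ 0) (h : Solv a b) : Solv (a * c ^ 2) b := by
  obtain ⟨Y, Z, h⟩ := h
  refine ⟨Y / c, Z, ?_⟩
  rw [← h]
  field_simp

theorem Solv.of_sq {c b : M} (hc : c ≠ 0) : Solv (c ^ 2) b :=
  ⟨c⁻¹, 0, by field_simp; ring⟩

/-- If `b = U² - a V²` then the conic has a point. -/
theorem Solv.of_norm [CharZero M] {a b U V : M} (ha : a ≠ 0) (hb : b ≠ 0)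
    (h : U ^ 2 - a * V ^ 2 = b) : Solv a b := by
  by_cases hU : U = 0
  · have hV : V ≠ 0 := by
      rintro rfl
      apply hb
      rw [← h, hU]
      ring
    refine ⟨(1 + 1 / a) / 2, (1 / a - 1) / (2 * V), ?_⟩
    have hb' : b = - (a * V ^ 2) := by rw [← h, hU]; ring
    rw [hb']
    field_simp
    ring
  · refine ⟨V / U, 1 / U, ?_⟩
    rw [← h]
    field_simp
    ring

/-- Descent step: `b * b' = c² - a`. -/
theorem Solv.step [CharZero M] {a b b' c : M} (ha : a ≠ 0) (hb : b ≠ 0) (hb' : b' ≠ 0)
    (h : b * b' = c ^ 2 - a) (hs : Solv a b') : Solv a b := by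
  obtain ⟨Y, Z, hYZ⟩ := hs
  by_cases hZ : Z = 0
  · have hY : a * Y ^ 2 = 1 := by rw [← hYZ, hZ]; ring
    have hY0 : Y ≠ 0 := by
      rintro rfl
      simp at hY
    refine ⟨Y, 0, ?_⟩
    rw [hY]; ring
  · -- `b' = (1/Z)² - a (Y/Z)²`, `b = (c² - a) / b'`
    have e1 : b' = (1 / Z) ^ 2 - a * (Y / Z) ^ 2 := by
      have : b' * Z ^ 2 = 1 - a * Y ^ 2 := by rw [← hYZ]; ring
      field_simp
      linear_combination this
    refine Solv.of_norm (U := (c / Z - a * (Y / Z)) / b') (V := (1 / Z - c * (Y / Z)) / b')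
      ha hb ?_
    have e2 : b = (c ^ 2 - a) / b' := by
      field_simp
      linear_combination h
    rw [e2]
    have e3 : (1 / Z) ^ 2 - a * (Y / Z) ^ 2 ≠ 0 := e1 ▸ hb'
    have e4 : ((c / Z - a * (Y / Z)) / b') ^ 2 - a * ((1 / Z - c * (Y / Z)) / b') ^ 2 =
        (c ^ 2 - a) * ((1 / Z) ^ 2 - a * (Y / Z) ^ 2) / b' ^ 2 := by
      field_simp
      ring
    rw [e4, ← e1]
    field_simp

end Abstract

variable {F : Type} [Field F] [IsAlgClosed F] [CharZero F]

/-- a square root modulo a squarefree polynomial. -/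
theorem exists_sqrt_mod (a b : F[X]) (hb : Squarefree b) :
    ∃ c : F[X], c.degree < b.degree ∧ b ∣ c ^ 2 - a := by
  classical
  have hb0 : b ≠ 0 := hb.ne_zero
  choose r hr using fun x : F => IsAlgClosed.exists_pow_nat_eq (a.eval x) (n := 2) (by norm_num)
  set s : Finset F := b.roots.toFinset with hs
  set c : F[X] := Lagrange.interpolate s id r with hc
  have hinj : Set.InjOn (id : F → F) s := fun x _ y _ h => h
  have hcard : (s.card : WithBot ℕ) = b.degree := by
    have h1 : Multiset.card b.roots = b.natDegree :=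
      splits_iff_card_roots.1 (IsAlgClosed.splits b)
    have h2 : s.card = Multiset.card b.roots := by
      rw [hs, Multiset.toFinset_card_of_nodup]
      exact nodup_roots (PerfectField.separable_iff_squarefree.2 hb)
    rw [h2, h1, degree_eq_natDegree hb0]
  refine ⟨c, ?_, ?_⟩
  · rw [← hcard]
    exact Lagrange.degree_interpolate_lt r hinj
  · have hev : ∀ x ∈ s, (c ^ 2 - a).eval x = 0 := by
      intro x hx
      have h1 : c.eval x = r x := Lagrange.eval_interpolate_at_node r hinj hx
      rw [eval_sub, eval_pow, h1, hr, sub_self]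
    have h3 : b = C b.leadingCoeff * (b.roots.map (fun x => X - C x)).prod :=
      (IsAlgClosed.splits b).eq_prod_roots
    have h4 : (b.roots.map (fun x => X - C x)).prod ∣ c ^ 2 - a := by
      by_cases h0 : c ^ 2 - a = 0
      · rw [h0]; exact dvd_zero _
      rw [Multiset.prod_X_sub_C_dvd_iff_le_roots h0]
      have hnd : b.roots.Nodup := nodup_roots (PerfectField.separable_iff_squarefree.2 hb)
      rw [Multiset.le_iff_subset hnd]
      intro x hx
      rw [mem_roots h0]
      exact hev x (Multiset.mem_toFinset.2 hx)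
    rw [h3]
    have hu : IsUnit (C b.leadingCoeff : F[X]) :=
      isUnit_C.2 (isUnit_iff_ne_zero.2 (leadingCoeff_ne_zero.2 hb0))
    exact (hu.mul_left_dvd).2 h4

theorem solv_poly : ∀ (n : ℕ) (a b : F[X]), a ≠ 0 → b ≠ 0 → a.natDegree + b.natDegree ≤ n →
    Solv (algebraMap F[X] (RatFunc F) a) (algebraMap F[X] (RatFunc F) b) := by
  have hinj : Function.Injective (algebraMap F[X] (RatFunc F)) := IsFractionRing.injective _ _
  have h0 : ∀ p : F[X], p ≠ 0 → algebraMap F[X] (RatFunc F) p ≠ 0 := fun p hp h =>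
    hp (hinj (by rw [h, map_zero]))
  have : CharZero (RatFunc F) := charZero_of_injective_algebraMap (algebraMap F (RatFunc F)).injective
  intro n
  induction n using Nat.strong_induction_on with
  | _ n ih =>
  intro a b ha hb hn
  wlog hab : a.natDegree ≤ b.natDegree generalizing a b
  · exact (this b a hb ha (by omega) (by omega)).symm
  by_cases hbd : b.natDegree = 0
  · -- constants
    obtain ⟨c, hc⟩ : ∃ c, b = C c := ⟨_, eq_C_of_natDegree_eq_zero hbd⟩
    obtain ⟨r, hr⟩ := IsAlgClosed.exists_pow_nat_eq c (n := 2) (by norm_num)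
    have hr0 : r ≠ 0 := by
      rintro rfl
      apply hb
      rw [hc, ← hr]
      simp
    have : algebraMap F[X] (RatFunc F) b = (algebraMap F[X] (RatFunc F) (C r)) ^ 2 := by
      rw [hc, ← hr, map_pow C, map_pow]
    rw [this]
    exact (Solv.of_sq (h0 _ (by simpa using hr0))).symm
  by_cases hsq : Squarefree b
  · obtain ⟨c, hcd, b', hb'⟩ := exists_sqrt_mod a b hsq
    by_cases hb'0 : b' = 0
    · have : a = c ^ 2 := by
        rw [hb'0, mul_zero] at hb'
        exact (sub_eq_zero.1 hb').symm
      have hc0 : c ≠ 0 := by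
        rintro rfl
        apply ha
        rw [this]; simp
      rw [this, map_pow]
      exact Solv.of_sq (h0 _ hc0)
    · have hdeg : b'.natDegree < b.natDegree := by
        have h1 : (b * b').natDegree = b.natDegree + b'.natDegree := natDegree_mul hb hb'0
        have h2 : (c ^ 2 - a).natDegree ≤ max (c ^ 2).natDegree a.natDegree := natDegree_sub_le _ _
        have h3 : (c ^ 2).natDegree = 2 * c.natDegree := natDegree_pow c 2
        have h4 : c.natDegree < b.natDegree := by
          by_cases hc0 : c = 0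
          · rw [hc0, natDegree_zero]; omega
          · exact (natDegree_lt_natDegree_iff hc0).2 hcd
        rw [hb', h1, h3] at h2
        rcases le_max_iff.1 h2 with h5 | h5 <;> omega
      have hs := ih (a.natDegree + b'.natDegree) (by omega) a b' ha hb'0 le_rfl
      refine Solv.step (h0 a ha) (h0 b hb) (h0 b' hb'0) (c := algebraMap F[X] (RatFunc F) c) ?_ hs
      rw [← map_mul, ← hb', map_sub, map_pow]
  · -- divide by a square
    rw [squarefree_iff_irreducible_sq_not_dvd_of_ne_zero hb] at hsq
    push Not at hsq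
    obtain ⟨g, hg, b', hb'⟩ := hsq
    have hb'0 : b' ≠ 0 := by
      rintro rfl
      exact hb (by rw [hb', mul_zero])
    have hg0 : g ≠ 0 := hg.ne_zero
    have hgd : 0 < g.natDegree := hg.natDegree_pos
    have hd : b.natDegree = g.natDegree + g.natDegree + b'.natDegree := by
      rw [hb', natDegree_mul (mul_ne_zero hg0 hg0) hb'0, natDegree_mul hg0 hg0]
    have hs := ih (a.natDegree + b'.natDegree) (by omega) a b' ha hb'0 le_rfl
    have : algebraMap F[X] (RatFunc F) b = algebraMap F[X] (RatFunc F) b' *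
        (algebraMap F[X] (RatFunc F) g) ^ 2 := by
      rw [hb', map_mul, map_mul]; ring
    rw [this]
    exact (Solv.mul_sq (h0 g hg0) hs.symm).symm

/-- Conics over `F(t)` have points. -/
theorem solv_ratFunc (a b : RatFunc F) (ha : a ≠ 0) (hb : b ≠ 0) : Solv a b := by
  have hinj : Function.Injective (algebraMap F[X] (RatFunc F)) := IsFractionRing.injective _ _
  have key : ∀ a : RatFunc F, a ≠ 0 → ∃ (p : F[X]) (c : RatFunc F), p ≠ 0 ∧ c ≠ 0 ∧
      a * c ^ 2 = algebraMap F[X] (RatFunc F) p := by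
    intro a ha
    refine ⟨a.num * a.denom, algebraMap F[X] (RatFunc F) a.denom,
      mul_ne_zero (RatFunc.num_ne_zero ha) a.denom_ne_zero, ?_, ?_⟩
    · intro h
      exact a.denom_ne_zero (hinj (by rw [h, map_zero]))
    · have h1 : a * algebraMap F[X] (RatFunc F) a.denom = algebraMap F[X] (RatFunc F) a.num := by
        have h2 : algebraMap F[X] (RatFunc F) a.denom ≠ 0 := fun h =>
          a.denom_ne_zero (hinj (by rw [h, map_zero]))
        have h3 := RatFunc.num_div_denom a
        rw [div_eq_iff h2] at h3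
        exact h3.symm
      rw [map_mul, pow_two, ← mul_assoc, h1]
  obtain ⟨p, c, hp, hc, hpc⟩ := key a ha
  obtain ⟨q, d, hq, hd, hqd⟩ := key b hb
  have h := solv_poly _ p q hp hq le_rfl
  rw [← hpc, ← hqd] at h
  exact h.of_mul_sq.symm.of_mul_sq.symm

/-- The affine conic `z² = a y² + c` over `F(t)` has a point. -/
theorem exists_conic_point (a c : RatFunc F) (ha : a ≠ 0) (hc : c ≠ 0) :
    ∃ y z : RatFunc F, z ^ 2 = a * y ^ 2 + c := by
  obtain ⟨Z, Y, h⟩ := solv_ratFunc (1 / c) (-a / c) (one_div_ne_zero hc)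
    (div_ne_zero (neg_ne_zero.2 ha) hc)
  refine ⟨Y, Z, ?_⟩
  field_simp at h
  linear_combination h

end Pool.Agent.Work.MP_4329d7_ag_sq
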