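import Mathlib
import Pool.Agent.Work.MP_4329d7_ag.FF.RatExt

/-!
Two embeddings `f, g` of a field `K` over `ℂ` in a field `Ω` such that the images of a
transcendence basis are jointly algebraically independent are linearly disjoint over `ℂ`.
-/

namespace Pool.Agent.Work.MP_4329d7_ag_sq

open Pool.Agent.Work.MP_4329d7_ag.FF

variable {K Ω : Type} [Field K] [Algebra ℂ K] [Field Ω] [Algebra ℂ Ω]

theorem exists_der_of_algInd {κ : Type} {w : κ → Ω} (hw : AlgebraicIndependent ℂ w) (c : κ → Ω) :
    ∃ D : Derivation ℂ Ω Ω, ∀ i, D (w i) = c i := by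
  classical
  obtain ⟨s, hs, hsb⟩ := exists_isTranscendenceBasis_superset (R := ℂ)
    ((AlgebraicIndependent.coe_range hw : AlgebraicIndepOn ℂ id (Set.range w)))
  let inv : Ω → Ω := fun x => if h : ∃ i, w i = x then c h.choose else 0
  obtain ⟨D, hD⟩ := Pool.Agent.Work.MP_4329d7_ag.R.exists_derivation (M := Ω) hsb
    (fun x : s => inv x)
  refine ⟨D, fun i => ?_⟩
  have h2 := hD ⟨w i, hs ⟨i, rfl⟩⟩
  have h3 : ∃ j, w j = w i := ⟨i, rfl⟩
  have h4 : h3.choose = i := hw.injective h3.choose_spec
  rw [h2]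
  change inv (w i) = c i
  simp only [inv, dif_pos h3, h4]

theorem mem_range_of_isAlgebraic {b : K} (hb : IsAlgebraic ℂ b) : ∃ c : ℂ, algebraMap ℂ K c = b := by
  have h1 : IsIntegral ℂ b := hb.isIntegral
  have h2 : (minpoly ℂ b).degree = 1 :=
    IsAlgClosed.degree_eq_one_of_irreducible ℂ (minpoly.irreducible h1)
  exact minpoly.mem_range_of_degree_eq_one ℂ b h2

theorem const_of_der {I : Type} [Fintype I] [DecidableEq I] (Fr : Frame K I) {b : K}
    (hb : ∀ i, Fr.d i b = 0) : ∃ c : ℂ, algebraMap ℂ K c = b := by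
  by_contra hne
  have htr : Transcendental ℂ b := fun h => hne (mem_range_of_isAlgebraic h)
  have hai : AlgebraicIndependent ℂ (fun _ : Unit => b) :=
    (algebraicIndependent_unique_type_iff (R := ℂ) (x := fun _ : Unit => b)).2 htr
  obtain ⟨D, hD⟩ := exists_der_of_algInd hai (fun _ => 1)
  have h1 := ratExt_der Fr D
  have h2 : D b = 0 := by
    rw [h1, ratExt_sum_apply]
    refine Finset.sum_eq_zero fun i _ => ?_
    change D (Fr.z i) * Fr.d i b = 0
    rw [hb i, mul_zero]
  rw [hD ()] at h2
  exact one_ne_zero h2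

theorem linDis_aux {I κ : Type} [Fintype I] [DecidableEq I] [DecidableEq κ] (f g : K →ₐ[ℂ] Ω)
    (Fr : Frame K I)
    (h : AlgebraicIndependent ℂ (Sum.elim (fun i => f (Fr.z i)) (fun i => g (Fr.z i)))) :
    ∀ (n : ℕ) (s : Finset κ), s.card = n → ∀ a b : κ → K,
      (∀ c : κ → ℂ, ∑ i ∈ s, algebraMap ℂ K (c i) * a i = 0 → ∀ i ∈ s, c i = 0) →
      ∑ i ∈ s, f (a i) * g (b i) = 0 → ∀ i ∈ s, b i = 0 := by
  classical
  -- the derivations
  have hD : ∀ j : I, ∃ D : Derivation ℂ Ω Ω, (∀ a, D (f a) = 0) ∧ (∀ b, D (g b) = g (Fr.d j b)) := by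
    intro j
    obtain ⟨D, hD⟩ := exists_der_of_algInd h
      (Sum.elim (fun _ => (0 : Ω)) (fun i => if j = i then 1 else 0))
    refine ⟨D, fun a => ?_, fun b => ?_⟩
    · letI : Algebra K Ω := f.toRingHom.toAlgebra
      haveI : IsScalarTower ℂ K Ω := IsScalarTower.of_algebraMap_eq fun c => (f.commutes c).symm
      have h1 := ratExt_apply (L := Ω) Fr D a
      have h2 : ∀ i, D (algebraMap K Ω (Fr.z i)) = 0 := fun i => hD (Sum.inl i)
      simp only [h2, zero_mul, Finset.sum_const_zero] at h1
      exact h1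
    · letI : Algebra K Ω := g.toRingHom.toAlgebra
      haveI : IsScalarTower ℂ K Ω := IsScalarTower.of_algebraMap_eq fun c => (g.commutes c).symm
      have h1 := ratExt_apply (L := Ω) Fr D b
      have h2 : ∀ i, D (algebraMap K Ω (Fr.z i)) = if j = i then 1 else 0 :=
        fun i => hD (Sum.inr i)
      simp only [h2, ite_mul, one_mul, zero_mul] at h1
      rw [Finset.sum_ite_eq Finset.univ j, if_pos (Finset.mem_univ j)] at h1
      exact h1
  choose D hDf hDg using hD
  intro n
  induction n with
  | zero =>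
    intro s hs a b _ _ i hi
    rw [Finset.card_eq_zero] at hs
    rw [hs] at hi
    exact absurd hi (Finset.notMem_empty i)
  | succ n ih =>
    intro s hs a b ha hab
    by_contra hne
    push Not at hne
    obtain ⟨i0, hi0, hb0⟩ := hne
    have hg0 : g (b i0) ≠ 0 := fun h0 => hb0 (by
      have := g.toRingHom.injective (a₁ := b i0) (a₂ := 0) (by simpa using h0)
      exact this)
    set b' : κ → K := fun i => b i / b i0 with hb'
    have h1 : ∑ i ∈ s, f (a i) * g (b' i) = 0 := by
      have : ∀ i, f (a i) * g (b' i) = (f (a i) * g (b i)) / g (b i0) := by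
        intro i
        rw [hb']
        simp only [map_div₀]
        rw [mul_div_assoc]
      simp only [this]
      rw [← Finset.sum_div, hab, zero_div]
    have hb1 : b' i0 = 1 := div_self hb0
    -- all derivatives vanish
    have h2 : ∀ j, ∀ i ∈ s, Fr.d j (b' i) = 0 := by
      intro j
      have h3 : ∑ i ∈ s, f (a i) * g (Fr.d j (b' i)) = 0 := by
        have h4 := congrArg (D j) h1
        rw [map_zero, map_sum] at h4
        rw [← h4]
        refine Finset.sum_congr rfl fun i _ => ?_
        rw [Derivation.leibniz, hDf, hDg]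
        simp [smul_eq_mul]
      have h5 : Fr.d j (b' i0) = 0 := by
        rw [hb1]
        exact Derivation.map_one_eq_zero _
      have h6 : ∑ i ∈ s.erase i0, f (a i) * g (Fr.d j (b' i)) = 0 := by
        rw [← Finset.add_sum_erase s _ hi0, h5, map_zero, mul_zero, zero_add] at h3
        exact h3
      have h7 := ih (s.erase i0) (by rw [Finset.card_erase_of_mem hi0, hs]; rfl) a
        (fun i => Fr.d j (b' i)) (fun c hc i hi => by
          have h8 := ha (fun i => if i = i0 then 0 else c i) (by
            rw [← Finset.add_sum_erase s _ hi0]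
            simp only [if_true, map_zero, zero_mul, zero_add]
            rw [← hc]
            refine Finset.sum_congr rfl fun i hi => ?_
            rw [if_neg (Finset.ne_of_mem_erase hi)]) i (Finset.mem_of_mem_erase hi)
          rwa [if_neg (Finset.ne_of_mem_erase hi)] at h8) h6
      intro i hi
      by_cases hii : i = i0
      · rw [hii]; exact h5
      · exact h7 i (Finset.mem_erase.2 ⟨hii, hi⟩)
    -- so the `b'` are constants
    have h9 : ∀ i, ∃ c : ℂ, i ∈ s → algebraMap ℂ K c = b' i := by
      intro i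
      by_cases hi : i ∈ s
      · obtain ⟨c, hc⟩ := const_of_der Fr (fun j => h2 j i hi)
        exact ⟨c, fun _ => hc⟩
      · exact ⟨0, fun h => absurd h hi⟩
    choose c hc using h9
    have h10 : f (∑ i ∈ s, algebraMap ℂ K (c i) * a i) = 0 := by
      rw [map_sum, ← h1]
      refine Finset.sum_congr rfl fun i hi => ?_
      rw [← hc i hi, map_mul, AlgHom.commutes, AlgHom.commutes, mul_comm]
    have h11 : ∑ i ∈ s, algebraMap ℂ K (c i) * a i = 0 :=
      f.toRingHom.injective (by simpa using h10)
    have h12 := ha c h11 i0 hi0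
    have h13 := hc i0 hi0
    rw [h12, map_zero, hb1] at h13
    exact zero_ne_one h13

theorem linDis {I : Type} [Fintype I] [DecidableEq I] (f g : K →ₐ[ℂ] Ω) (x : I → K)
    (hx : IsTranscendenceBasis ℂ x)
    (h : AlgebraicIndependent ℂ (Sum.elim (fun i => f (x i)) (fun i => g (x i))))
    {r : ℕ} (a b : Fin r → K) (ha : LinearIndependent ℂ a)
    (hab : ∑ i, f (a i) * g (b i) = 0) : b = 0 := by
  obtain ⟨Fr, hFr⟩ := ratExt_exists_frame x hx
  rw [← hFr] at h
  funext i
  refine linDis_aux f g Fr h r Finset.univ (by simp) a b (fun c hc i _ => ?_) hab i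
    (Finset.mem_univ i)
  refine Fintype.linearIndependent_iff.1 ha c ?_ i
  rw [← hc]
  exact Finset.sum_congr rfl fun i _ => Algebra.smul_def _ _

end Pool.Agent.Work.MP_4329d7_ag_sq
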