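import Mathlib
import Pool.Agent.Work.MP_4329d7_ag_sq.RMap

/-!
Relatively algebraically closed subfields, transcendence degree of rational function fields and
the independence step for two-point evaluations.
-/

set_option linter.style.haveILetI false

namespace Pool.Agent.Work.MP_4329d7_ag_sq

open Polynomial Cardinal

section RelClosed

variable {L L' : Type} [Field L] [Field L']

/-- `D` is algebraically closed in `L`. -/
def RelClosed (D : Subfield L) : Prop :=
  ∀ (p : L[X]) (z : L), p ≠ 0 → (∀ n, p.coeff n ∈ D) → p.eval z = 0 → z ∈ D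

theorem RelClosed.comap {D : Subfield L'} (h : RelClosed D) (f : L →+* L') :
    RelClosed (D.comap f) := by
  intro p z hp hc hz
  refine h (p.map f) (f z) ?_ (fun n => ?_) ?_
  · exact (Polynomial.map_ne_zero_iff f.injective).2 hp
  · rw [Polynomial.coeff_map]
    exact hc n
  · rw [Polynomial.eval_map, Polynomial.eval₂_at_apply, hz, map_zero]

/-- quadratic equations. -/
theorem RelClosed.quadratic {D : Subfield L} (h : RelClosed D) {a b c z : L} (ha : a ∈ D)
    (hb : b ∈ D) (hc : c ∈ D) (hne : a ≠ 0 ∨ b ≠ 0) (hz : a * z ^ 2 + b * z + c = 0) : z ∈ D := by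
  refine h (C a * X ^ 2 + C b * X + C c) z ?_ (fun n => ?_) ?_
  · intro h0
    have h1 := congrArg (fun q => q.coeff 2) h0
    have h2 := congrArg (fun q => q.coeff 1) h0
    simp [coeff_C] at h1 h2
    rcases hne with h | h
    · exact h h1
    · exact h h2
  · simp only [coeff_add, coeff_C_mul, coeff_X_pow, coeff_X, coeff_C]
    refine add_mem (add_mem ?_ ?_) ?_
    · split_ifs
      · simpa using ha
      · simp
    · split_ifs
      · simpa using hb
      · simp
    · split_ifs
      · exact hc
      · exact zero_mem _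
  · simpa using hz

end RelClosed

open scoped IntermediateField.algebraAdjoinAdjoin in
/-- a spanning family of the right size is a transcendence basis. -/
theorem basis_of_span {R A κ : Type} [Field R] [Field A] [Algebra R A] [Finite κ] (y : κ → A)
    (hspan : ∀ D : Subfield A, RelClosed D → (∀ a, algebraMap R A a ∈ D) → (∀ k, y k ∈ D) →
      ∀ z, z ∈ D) (hcard : Cardinal.mk κ ≤ Algebra.trdeg R A) : IsTranscendenceBasis R y := by
  set L1 := IntermediateField.adjoin R (Set.range y) with hL1
  set D : Subfield A := (algebraicClosure L1 A).toSubfield with hD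
  have hmem : ∀ z, z ∈ D ↔ IsAlgebraic L1 z := fun z => mem_algebraicClosure_iff
  have hrel : RelClosed D := by
    intro p z hp hc hz
    rw [hmem]
    let Dr : Subring A := D.toSubring
    have hz' : IsAlgebraic (algebraicClosure L1 A) z := by
      have hp' : (p.coeffs : Set A) ⊆ ((algebraicClosure L1 A).toSubfield.toSubring : Set A) := by
        intro a ha
        obtain ⟨n, -, rfl⟩ := Polynomial.mem_coeffs_iff.1 ha
        exact hc n
      refine ⟨p.toSubring (algebraicClosure L1 A).toSubfield.toSubring hp', ?_, ?_⟩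
      · intro h0
        apply hp
        have h1 := congrArg (fun q => Polynomial.map
          (algebraicClosure L1 A).toSubfield.toSubring.subtype q) h0
        have h3 := Polynomial.map_toSubring p (algebraicClosure L1 A).toSubfield.toSubring hp'
        rw [Polynomial.map_zero] at h1
        exact h3.symm.trans h1
      · have h1 : p.eval z = 0 := hz
        rw [Polynomial.aeval_def]
        have h2 : algebraMap (algebraicClosure L1 A) A =
            (algebraicClosure L1 A).toSubfield.toSubring.subtype := rfl
        rw [h2, ← Polynomial.eval_map]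
        have h3 := Polynomial.map_toSubring p (algebraicClosure L1 A).toSubfield.toSubring hp'
        rw [h3]
        exact h1
    have hint : IsAlgebraic L1 z := by
      have : Algebra.IsAlgebraic L1 (algebraicClosure L1 A) := inferInstance
      exact hz'.restrictScalars L1
    exact hint
  have hall : ∀ z : A, IsAlgebraic L1 z := by
    intro z
    rw [← hmem]
    refine hspan D hrel (fun a => ?_) (fun k => ?_) z
    · rw [hmem]
      have : algebraMap R A a = algebraMap L1 A (algebraMap R L1 a) := rfl
      rw [this]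
      exact isAlgebraic_algebraMap _
    · rw [hmem]
      have : y k = algebraMap L1 A ⟨y k, IntermediateField.subset_adjoin R _ ⟨k, rfl⟩⟩ := rfl
      rw [this]
      exact isAlgebraic_algebraMap _
  have h1 : Algebra.IsAlgebraic L1 A := ⟨hall⟩
  have h2 : Algebra.IsAlgebraic (Algebra.adjoin R (Set.range y)) A :=
    (IsFractionRing.comap_isAlgebraic_iff (A := Algebra.adjoin R (Set.range y)) (K := L1)
      (C := A)).2 h1
  exact Algebra.IsAlgebraic.isTranscendenceBasis_of_le_trdeg_of_finite R y hcard

theorem trdeg_self_ratFunc (E : Type) [Field E] : Algebra.trdeg E (RatFunc E) = 1 := by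
  have : Algebra.IsAlgebraic (Polynomial E) (RatFunc E) :=
    IsFractionRing.comap_isAlgebraic_iff (K := RatFunc E).2 inferInstance
  have h := trdeg_add_eq E E[X] (A := RatFunc E)
  rw [Polynomial.trdeg_of_isDomain, _root_.trdeg_eq_zero, add_zero] at h
  exact h.symm

theorem trdeg_ratFunc (F E : Type) [Field F] [Field E] [Algebra F E] :
    Algebra.trdeg F (RatFunc E) = Algebra.trdeg F E + 1 := by
  rw [← trdeg_add_eq F E (A := RatFunc E), trdeg_self_ratFunc]

/-- a subfield of `E(t)` containing `E` and `t` is everything. -/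
theorem mem_of_C_X {E : Type} [Field E] (D : Subfield (RatFunc E)) (hC : ∀ e, RatFunc.C e ∈ D)
    (hX : RatFunc.X ∈ D) (z : RatFunc E) : z ∈ D := by
  have h1 : ∀ p : E[X], algebraMap E[X] (RatFunc E) p ∈ D := by
    intro p
    induction p using Polynomial.induction_on' with
    | add p q hp hq => rw [map_add]; exact add_mem hp hq
    | monomial n a =>
      rw [← Polynomial.C_mul_X_pow_eq_monomial, map_mul, map_pow, RatFunc.algebraMap_X,
        RatFunc.algebraMap_C]
      exact mul_mem (hC a) (pow_mem hX n)
  rw [← RatFunc.num_div_denom z]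
  exact div_mem (h1 _) (h1 _)

section Step

variable {F F' : Type} [Field F] [Field F'] [Algebra F F']

/-- The independence step: `Y` and the line `s = U + V t` are mutually algebraic. -/
theorem ai_step (U V : F') (htr : Algebra.trdeg F F' = 2)
    (hUV : ∀ D : Subfield F', RelClosed D → (∀ a, algebraMap F F' a ∈ D) → U ∈ D → V ∈ D →
      ∀ z, z ∈ D)
    (Y : RatFunc F')
    (hY : ∀ D : Subfield (RatFunc F'), RelClosed D → (∀ a, rmap (algebraMap F F') a ∈ D) → Y ∈ D →
      RatFunc.C U + RatFunc.C V * RatFunc.X ∈ D) :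
    letI : Algebra (RatFunc (RatFunc F)) (RatFunc (RatFunc F')) :=
      (rmap (rmap (algebraMap F F'))).toAlgebra
    AlgebraicIndependent (RatFunc (RatFunc F))
      (Sum.elim (fun _ : Unit => (RatFunc.C Y : RatFunc (RatFunc F')))
        (fun _ : Unit => psi F' Y)) := by
  letI alg : Algebra (RatFunc (RatFunc F)) (RatFunc (RatFunc F')) :=
    (rmap (rmap (algebraMap F F'))).toAlgebra
  have halg : ∀ a, algebraMap (RatFunc (RatFunc F)) (RatFunc (RatFunc F')) a =
    rmap (rmap (algebraMap F F')) a := fun a => rfl
  haveI : IsScalarTower F (RatFunc (RatFunc F)) (RatFunc (RatFunc F')) := by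
    refine IsScalarTower.of_algebraMap_eq fun a => ?_
    rw [halg]
    have h1 : algebraMap F (RatFunc (RatFunc F)) a = RatFunc.C (RatFunc.C a) := by
      rw [IsScalarTower.algebraMap_apply F (RatFunc F) (RatFunc (RatFunc F)),
        RatFunc.algebraMap_eq_C, RatFunc.algebraMap_eq_C]
    have h2 : algebraMap F (RatFunc (RatFunc F')) a = RatFunc.C (RatFunc.C (algebraMap F F' a)) := by
      rw [IsScalarTower.algebraMap_apply F F' (RatFunc (RatFunc F')),
        IsScalarTower.algebraMap_apply F' (RatFunc F') (RatFunc (RatFunc F')),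
        RatFunc.algebraMap_eq_C, RatFunc.algebraMap_eq_C]
    rw [h1, h2, rmap_C, rmap_C]
  have ht : Algebra.trdeg (RatFunc (RatFunc F)) (RatFunc (RatFunc F')) = 2 := by
    have h1 := trdeg_add_eq F (RatFunc (RatFunc F)) (A := RatFunc (RatFunc F'))
    rw [trdeg_ratFunc F (RatFunc F), trdeg_ratFunc F F, trdeg_ratFunc F (RatFunc F'),
      trdeg_ratFunc F F', htr, _root_.trdeg_eq_zero] at h1
    have h2 : (2 : Cardinal) + Algebra.trdeg (RatFunc (RatFunc F)) (RatFunc (RatFunc F')) = 2 + 2 := by
      have e1 : (0 + 1 + 1 : Cardinal) = 2 := by norm_num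
      have e2 : (2 + 1 + 1 : Cardinal) = 2 + 2 := by rw [add_assoc]; norm_num
      rw [← e1, h1, e2, e1]
    exact Cardinal.eq_of_add_eq_add_left h2 (by exact_mod_cast Cardinal.natCast_lt_aleph0 (n := 2))
  refine (basis_of_span _ ?_ ?_).1
  · intro D hD hR hy
    have hC1 : RatFunc.C Y ∈ D := hy (Sum.inl ())
    have hC2 : psi F' Y ∈ D := hy (Sum.inr ())
    have hs1 : RatFunc.C (RatFunc.C U + RatFunc.C V * RatFunc.X) ∈ D := by
      have := hY (D.comap (RatFunc.C : RatFunc F' →+* RatFunc (RatFunc F'))) (hD.comap _)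
        (fun a => by
          rw [Subfield.mem_comap, ← rmap_rmap_C, ← halg]
          exact hR _) hC1
      exact this
    have hs2 : psi F' (RatFunc.C U + RatFunc.C V * RatFunc.X) ∈ D := by
      have := hY (D.comap (psi F')) (hD.comap _)
        (fun a => by
          rw [Subfield.mem_comap, ← rmap_rmap_psi, ← halg]
          exact hR _) hC2
      exact this
    have hT1 : (RatFunc.C RatFunc.X : RatFunc (RatFunc F')) ∈ D := by
      have h1 := hR (RatFunc.C RatFunc.X)
      rw [halg, rmap_C, rmap_X] at h1
      exact h1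
    have hT2 : (RatFunc.X : RatFunc (RatFunc F')) ∈ D := by
      have h1 := hR RatFunc.X
      rw [halg, rmap_X] at h1
      exact h1
    have hne : (RatFunc.C RatFunc.X : RatFunc (RatFunc F')) - RatFunc.X ≠ 0 := by
      rw [sub_ne_zero]
      intro h0
      have h1 := congrArg RatFunc.intDegree h0
      rw [RatFunc.intDegree_C, RatFunc.intDegree_X] at h1
      exact absurd h1 (by norm_num)
    rw [map_add, map_mul] at hs2
    have e0 : ∀ w : F', psi F' (RatFunc.C w) = RatFunc.C (RatFunc.C w) := fun w =>
      rmap_C (RatFunc.C : F' →+* RatFunc F') w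
    have e1 := e0 U
    have e2 := e0 V
    have e3 : psi F' RatFunc.X = (RatFunc.X : RatFunc (RatFunc F')) := rmap_X _
    rw [e1, e2, e3] at hs2
    rw [map_add, map_mul] at hs1
    have hV : (RatFunc.C (RatFunc.C V) : RatFunc (RatFunc F')) ∈ D := by
      have h1 : (RatFunc.C (RatFunc.C V) : RatFunc (RatFunc F')) =
          ((RatFunc.C (RatFunc.C U) + RatFunc.C (RatFunc.C V) * RatFunc.C (RatFunc.X : RatFunc F')) -
            (RatFunc.C (RatFunc.C U) + RatFunc.C (RatFunc.C V) * RatFunc.X)) /
            (RatFunc.C (RatFunc.X : RatFunc F') - RatFunc.X) := by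
        rw [eq_div_iff hne]
        ring
      rw [h1]
      exact div_mem (sub_mem hs1 hs2) (sub_mem hT1 hT2)
    have hU : (RatFunc.C (RatFunc.C U) : RatFunc (RatFunc F')) ∈ D := by
      have h1 := sub_mem hs1 (mul_mem hV hT1)
      rwa [add_sub_cancel_right] at h1
    have hF : ∀ f : F', (RatFunc.C (RatFunc.C f) : RatFunc (RatFunc F')) ∈ D := by
      intro f
      have := hUV (D.comap ((RatFunc.C : RatFunc F' →+* RatFunc (RatFunc F')).comp RatFunc.C))
        (hD.comap _) (fun a => by
          rw [Subfield.mem_comap]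
          have h1 := hR (RatFunc.C (RatFunc.C a))
          rw [halg, rmap_C, rmap_C] at h1
          exact h1) hU hV f
      exact this
    intro z
    refine mem_of_C_X D (fun e => ?_) hT2 z
    exact mem_of_C_X (D.comap (RatFunc.C : RatFunc F' →+* RatFunc (RatFunc F'))) hF hT1 e
  · rw [ht]
    simp

/-- The consequence used below: `Y` is transcendental over `F(t)`. -/
theorem ai_step_transc (U V : F') (htr : Algebra.trdeg F F' = 2)
    (hUV : ∀ D : Subfield F', RelClosed D → (∀ a, algebraMap F F' a ∈ D) → U ∈ D → V ∈ D →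
      ∀ z, z ∈ D)
    (Y : RatFunc F')
    (hY : ∀ D : Subfield (RatFunc F'), RelClosed D → (∀ a, rmap (algebraMap F F') a ∈ D) → Y ∈ D →
      RatFunc.C U + RatFunc.C V * RatFunc.X ∈ D)
    (p : (RatFunc F)[X]) (hp : p ≠ 0) : p.eval₂ (rmap (algebraMap F F')) Y ≠ 0 := by
  letI alg : Algebra (RatFunc (RatFunc F)) (RatFunc (RatFunc F')) :=
    (rmap (rmap (algebraMap F F'))).toAlgebra
  have hind := ai_step U V htr hUV Y hY
  intro h0
  have h1 : Transcendental (RatFunc (RatFunc F)) (RatFunc.C Y : RatFunc (RatFunc F')) :=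
    hind.transcendental (Sum.inl ())
  apply h1
  refine ⟨p.map (RatFunc.C : RatFunc F →+* RatFunc (RatFunc F)), ?_, ?_⟩
  · exact (Polynomial.map_ne_zero_iff (RingHom.injective _)).2 hp
  · rw [Polynomial.aeval_def, Polynomial.eval₂_map]
    have h3 := congrArg (RatFunc.C : RatFunc F' →+* RatFunc (RatFunc F')) h0
    rw [Polynomial.hom_eval₂, map_zero] at h3
    rw [← h3]
    congr 1
    ext a
    change rmap (rmap (algebraMap F F')) (RatFunc.C a) = RatFunc.C (rmap (algebraMap F F') a)
    rw [rmap_C]

/-- The consequence used below: composition of independent families. -/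
theorem ai_step_comp [Algebra ℂ F] [Algebra ℂ F'] [IsScalarTower ℂ F F']
    (U V : F') (htr : Algebra.trdeg F F' = 2)
    (hUV : ∀ D : Subfield F', RelClosed D → (∀ a, algebraMap F F' a ∈ D) → U ∈ D → V ∈ D →
      ∀ z, z ∈ D)
    (Y : RatFunc F')
    (hY : ∀ D : Subfield (RatFunc F'), RelClosed D → (∀ a, rmap (algebraMap F F') a ∈ D) → Y ∈ D →
      RatFunc.C U + RatFunc.C V * RatFunc.X ∈ D)
    {I : Type} (x : I → RatFunc (RatFunc F)) (hx : AlgebraicIndependent ℂ x) :
    AlgebraicIndependent ℂ (Sum.elim
      (Sum.elim (fun _ : Unit => (RatFunc.C Y : RatFunc (RatFunc F')))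
        (fun _ : Unit => psi F' Y)) (fun i => rmap (rmap (algebraMap F F')) (x i))) := by
  letI alg : Algebra (RatFunc (RatFunc F)) (RatFunc (RatFunc F')) :=
    (rmap (rmap (algebraMap F F'))).toAlgebra
  have hind := ai_step U V htr hUV Y hY
  haveI tow : IsScalarTower ℂ (RatFunc (RatFunc F)) (RatFunc (RatFunc F')) := by
    refine IsScalarTower.of_algebraMap_eq fun c => ?_
    change _ = (rmapA (rmapA (IsScalarTower.toAlgHom ℂ F F'))) _
    rw [AlgHom.commutes]
  exact hx.sumElim_comp hind

end Step

open scoped IntermediateField.algebraAdjoinAdjoin in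
theorem isAlgebraic_adjoin {R A : Type} [Field R] [Field A] [Algebra R A] (S : Set A)
    (h : Algebra.IsAlgebraic (IntermediateField.adjoin R S) A) :
    Algebra.IsAlgebraic (Algebra.adjoin R S) A :=
  (IsFractionRing.comap_isAlgebraic_iff (A := Algebra.adjoin R S)
    (K := IntermediateField.adjoin R S) (C := A)).2 h

end Pool.Agent.Work.MP_4329d7_ag_sq
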