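import Mathlib
import Pool.Agent.Work.MP_4329d7_ag_sq.RMap
import Pool.Agent.Work.MP_4329d7_ag_sq.LinDis
import Pool.Agent.Work.MP_4329d7_ag_sq.Conic
import Pool.Agent.Work.MP_4329d7_ag_sq.Span

/-!
`Good K`: rational connectedness of `K` witnessed over an algebraically closed parameter field by
the algebraic independence of the two evaluations of a transcendence basis. It passes from `K₀` to
the function field of a conic over `K₀`.
-/

set_option linter.style.haveILetI false

namespace Pool.Agent.Work.MP_4329d7_ag_sq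

open Polynomial

/-- The two evaluations of a transcendence basis are jointly algebraically independent. -/
def Good (K : Type) [Field K] [Algebra ℂ K] : Prop :=
  ∃ (F : Type) (_ : Field F) (_ : Algebra ℂ F) (_ : IsAlgClosed F) (φ : K →ₐ[ℂ] RatFunc F)
    (I : Type) (_ : Fintype I) (x : I → K), IsTranscendenceBasis ℂ x ∧
    AlgebraicIndependent ℂ (Sum.elim (fun i => (RatFunc.C (φ (x i)) : RatFunc (RatFunc F)))
      (fun i => psi F (φ (x i))))

/-- Fields algebraic over `ℂ`. -/
theorem Good.of_isAlgebraic {K : Type} [Field K] [Algebra ℂ K] [Algebra.IsAlgebraic ℂ K] :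
    Good K := by
  let l : K →ₐ[ℂ] ℂ := IsAlgClosed.lift
  refine ⟨ℂ, inferInstance, inferInstance, inferInstance,
    (IsScalarTower.toAlgHom ℂ ℂ (RatFunc ℂ)).comp l, Empty, inferInstance, Empty.elim, ?_, ?_⟩
  · have h : AlgebraicIndependent ℂ (Empty.elim : Empty → K) :=
      algebraicIndependent_empty_type_iff.2 (algebraMap ℂ K).injective
    rw [AlgebraicIndependent.isTranscendenceBasis_iff_isAlgebraic h]
    exact Algebra.IsAlgebraic.extendScalars (R := ℂ)
      (algebraMap ℂ (Algebra.adjoin ℂ (Set.range (Empty.elim : Empty → K)))).injective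
  · exact algebraicIndependent_empty_type_iff.2 (algebraMap ℂ (RatFunc (RatFunc ℂ))).injective

section Step

variable (F : Type) [Field F]

/-- The parameter field after one step. -/
abbrev Fc : Type := AlgebraicClosure (RatFunc (RatFunc F))

/-- The first new parameter. -/
noncomputable def U : Fc F :=
  algebraMap (RatFunc (RatFunc F)) (Fc F) (RatFunc.C RatFunc.X)

/-- The second new parameter. -/
noncomputable def V : Fc F := algebraMap (RatFunc (RatFunc F)) (Fc F) RatFunc.X

theorem trdeg_Fc : Algebra.trdeg F (Fc F) = 2 := by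
  have h1 := trdeg_add_eq F (RatFunc (RatFunc F)) (A := Fc F)
  rw [trdeg_ratFunc F (RatFunc F), trdeg_ratFunc F F, _root_.trdeg_eq_zero (R := F) (A := F),
    _root_.trdeg_eq_zero (R := RatFunc (RatFunc F)) (A := Fc F)] at h1
  rw [← h1]
  norm_num

theorem span_Fc (D : Subfield (Fc F)) (hD : RelClosed D) (hF : ∀ a, algebraMap F (Fc F) a ∈ D)
    (hU : U F ∈ D) (hV : V F ∈ D) (z : Fc F) : z ∈ D := by
  have h1 : ∀ a : RatFunc (RatFunc F), algebraMap (RatFunc (RatFunc F)) (Fc F) a ∈ D := by
    intro a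
    refine mem_of_C_X (D.comap (algebraMap (RatFunc (RatFunc F)) (Fc F))) (fun e => ?_) hV a
    refine mem_of_C_X ((D.comap (algebraMap (RatFunc (RatFunc F)) (Fc F))).comap
      (RatFunc.C : RatFunc F →+* RatFunc (RatFunc F))) (fun f => ?_) hU e
    have h2 := hF f
    rw [IsScalarTower.algebraMap_apply F (RatFunc (RatFunc F)) (Fc F),
      IsScalarTower.algebraMap_apply F (RatFunc F) (RatFunc (RatFunc F)),
      RatFunc.algebraMap_eq_C, RatFunc.algebraMap_eq_C] at h2
    exact h2
  have h2 : IsAlgebraic (RatFunc (RatFunc F)) z := Algebra.IsAlgebraic.isAlgebraic z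
  obtain ⟨p, hp, hz⟩ := h2
  refine hD (p.map (algebraMap (RatFunc (RatFunc F)) (Fc F))) z ?_ (fun n => ?_) ?_
  · exact (Polynomial.map_ne_zero_iff (algebraMap (RatFunc (RatFunc F)) (Fc F)).injective).2 hp
  · rw [Polynomial.coeff_map]
    exact h1 _
  · rw [Polynomial.eval_map]
    exact hz

end Step

/-- The step, for an arbitrary `Y` mutually algebraic with the line `U + V t`. -/
theorem Good.step {K₀ K F : Type} [Field K₀] [Algebra ℂ K₀] [Field K] [Algebra ℂ K]
    [Algebra K₀ K] [IsScalarTower ℂ K₀ K] [Field F] [Algebra ℂ F] (φ : K₀ →ₐ[ℂ] RatFunc F)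
    {I : Type} [Fintype I] (x : I → K₀) (hx : IsTranscendenceBasis ℂ x)
    (hai : AlgebraicIndependent ℂ (Sum.elim (fun i => (RatFunc.C (φ (x i)) : RatFunc (RatFunc F)))
      (fun i => psi F (φ (x i)))))
    (y z : K) (hy : Transcendental K₀ y) (q : K₀[X]) (hz : z ^ 2 = aeval y q)
    (hgen : IntermediateField.adjoin K₀ ({y, z} : Set K) = ⊤)
    (Y Z : RatFunc (Fc F))
    (hY : ∀ D : Subfield (RatFunc (Fc F)), RelClosed D →
      (∀ a, rmap (algebraMap F (Fc F)) a ∈ D) → Y ∈ D →
      RatFunc.C (U F) + RatFunc.C (V F) * RatFunc.X ∈ D)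
    (hYZ : Z ^ 2 = q.eval₂ ((rmap (algebraMap F (Fc F))).comp (φ : K₀ →+* RatFunc F)) Y) :
    Good K := by
  classical
  -- the homomorphism on `K₀`
  let e : F →ₐ[ℂ] Fc F := IsScalarTower.toAlgHom ℂ F (Fc F)
  let φ' : K₀ →ₐ[ℂ] RatFunc (Fc F) := (rmapA e).comp φ
  have hφ' : ∀ a, φ' a = rmap (algebraMap F (Fc F)) (φ a) := fun a => rfl
  letI algM : Algebra K₀ (RatFunc (Fc F)) := φ'.toRingHom.toAlgebra
  haveI towM : IsScalarTower ℂ K₀ (RatFunc (Fc F)) :=
    IsScalarTower.of_algebraMap_eq fun c => (φ'.commutes c).symm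
  -- `Y` is transcendental over `K₀`
  have hYtr : Transcendental K₀ Y := by
    rintro ⟨p, hp, hpY⟩
    refine ai_step_transc (U F) (V F) (trdeg_Fc F) (span_Fc F) Y hY
      (p.map (φ : K₀ →+* RatFunc F)) ((Polynomial.map_ne_zero_iff (RingHom.injective _)).2 hp) ?_
    rw [Polynomial.eval₂_map]
    exact hpY
  -- the homomorphism on `K₀(y)`
  let L := IntermediateField.adjoin K₀ ({y} : Set K)
  let e1 : RatFunc K₀ ≃ₐ[K₀] L := RatFunc.algEquivOfTranscendental y hy
  let e2 : RatFunc K₀ ≃ₐ[K₀] IntermediateField.adjoin K₀ ({Y} : Set (RatFunc (Fc F))) :=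
    RatFunc.algEquivOfTranscendental Y hYtr
  let f : L →ₐ[K₀] RatFunc (Fc F) :=
    (IntermediateField.val _).comp ((e1.symm.trans e2).toAlgHom)
  have hyL : y ∈ L := IntermediateField.mem_adjoin_simple_self K₀ y
  have hfy : f ⟨y, hyL⟩ = Y := by
    have h1 : e1 RatFunc.X = ⟨y, hyL⟩ := by
      apply Subtype.ext
      exact RatFunc.algEquivOfTranscendental_X y hy
    have h2 : e1.symm ⟨y, hyL⟩ = RatFunc.X := by rw [← h1, AlgEquiv.symm_apply_apply]
    change ((e2 (e1.symm ⟨y, hyL⟩) : _) : RatFunc (Fc F)) = Y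
    rw [h2]
    exact RatFunc.algEquivOfTranscendental_X Y hYtr
  -- `z` over `K₀(y)`
  have hzL : z ^ 2 = algebraMap L K (aeval (⟨y, hyL⟩ : L) q) := by
    rw [hz]
    have h1 : (algebraMap L K) (aeval (⟨y, hyL⟩ : L) q) = aeval (algebraMap L K ⟨y, hyL⟩) q :=
      (Polynomial.aeval_algebraMap_apply K (⟨y, hyL⟩ : L) q).symm
    rw [h1]
    rfl
  have hsp : ∀ s ∈ ({z} : Set K), IsIntegral L s ∧ ((minpoly L s).map (f : L →+* RatFunc (Fc F))).Splits := by
    intro s hs
    rw [Set.mem_singleton_iff] at hs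
    rw [hs]
    set p : L[X] := X ^ 2 - C (aeval (⟨y, hyL⟩ : L) q) with hp
    have hpm : p.Monic := monic_X_pow_sub_C _ (by norm_num)
    have hpz : aeval z p = 0 := by
      rw [hp, map_sub, map_pow, aeval_X, aeval_C, hzL, sub_self]
    refine ⟨⟨p, hpm, hpz⟩, ?_⟩
    have hdvd : minpoly L z ∣ p := minpoly.dvd L z hpz
    have h2 : (p.map (f : L →+* RatFunc (Fc F))) = (X - C Z) * (X + C Z) := by
      rw [hp, Polynomial.map_sub, Polynomial.map_pow, Polynomial.map_X, Polynomial.map_C]
      have h3 : (f : L →+* RatFunc (Fc F)) (aeval (⟨y, hyL⟩ : L) q) = Z ^ 2 := by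
        change f (aeval (⟨y, hyL⟩ : L) q) = Z ^ 2
        rw [← Polynomial.aeval_algHom_apply, hfy, hYZ, Polynomial.aeval_def]
        rfl
      rw [h3, map_pow C]
      ring
    have h4 : (p.map (f : L →+* RatFunc (Fc F))).Splits := by
      rw [h2]
      exact (Polynomial.Splits.X_sub_C Z).mul (Polynomial.Splits.X_add_C Z)
    refine Polynomial.Splits.of_dvd h4 ?_ (Polynomial.map_dvd _ hdvd)
    exact (Polynomial.map_ne_zero_iff (RingHom.injective _)).2 hpm.ne_zero
  have hgenL : IntermediateField.adjoin L ({z} : Set K) = ⊤ := by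
    rw [← top_le_iff]
    intro w _
    have h1 : IntermediateField.adjoin K₀ ({y, z} : Set K) ≤
        (IntermediateField.adjoin L ({z} : Set K)).restrictScalars K₀ := by
      rw [IntermediateField.adjoin_le_iff]
      intro t ht
      rcases ht with rfl | ht
      · change t ∈ IntermediateField.adjoin L ({z} : Set K)
        exact IntermediateField.algebraMap_mem _ (⟨t, hyL⟩ : L)
      · rw [Set.mem_singleton_iff] at ht
        rw [ht]
        exact IntermediateField.mem_adjoin_simple_self L z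
    rw [hgen] at h1
    exact h1 IntermediateField.mem_top
  obtain ⟨Φ, hΦ⟩ := IntermediateField.exists_algHom_of_adjoin_splits' (F := K₀) (E := K)
    (K := RatFunc (Fc F)) (L := L) (S := {z}) f hsp hgenL
  have hΦL : ∀ a : L, Φ (a : K) = f a := fun a => congrArg (fun g => g a) hΦ
  have hΦy : Φ y = Y := by
    rw [← hfy]
    exact hΦL ⟨y, hyL⟩
  have hΦK : ∀ a : K₀, Φ (algebraMap K₀ K a) = φ' a := fun a => Φ.commutes a
  -- transcendence basis
  have hyb : IsTranscendenceBasis K₀ (fun _ : Unit => y) := by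
    have h1 : AlgebraicIndependent K₀ (fun _ : Unit => y) :=
      (algebraicIndependent_unique_type_iff).2 hy
    rw [h1.isTranscendenceBasis_iff_isAlgebraic]
    have h2 : Algebra.IsAlgebraic L K := by
      have h3 : (⊤ : IntermediateField L K) ≤ (algebraicClosure L K) := by
        rw [← hgenL, IntermediateField.adjoin_le_iff]
        intro s hs
        exact mem_algebraicClosure_iff'.2 (hsp s hs).1
      exact ⟨fun w => mem_algebraicClosure_iff.1 (h3 IntermediateField.mem_top)⟩
    have h4 : Set.range (fun _ : Unit => y) = {y} := Set.range_const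
    rw [h4]
    exact isAlgebraic_adjoin _ h2
  refine ⟨Fc F, inferInstance, inferInstance, inferInstance, Φ.restrictScalars ℂ, Unit ⊕ I,
    inferInstance, Sum.elim (fun _ => y) (algebraMap K₀ K ∘ x), hx.sumElim_comp hyb, ?_⟩
  have h5 := ai_step_comp (U F) (V F) (trdeg_Fc F) (span_Fc F) Y hY _ hai
  have h6 := h5.comp (Equiv.sumSumSumComm Unit I Unit I) (Equiv.injective _)
  convert h6 using 1
  funext t
  rcases t with (t | t) | (t | t)
  · change RatFunc.C (Φ y) = RatFunc.C Y
    rw [hΦy]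
  · change RatFunc.C (Φ (algebraMap K₀ K (x t))) =
      rmap (rmap (algebraMap F (Fc F))) (RatFunc.C (φ (x t)))
    rw [hΦK, rmap_C, hφ']
  · change psi (Fc F) (Φ y) = psi (Fc F) Y
    rw [hΦy]
  · change psi (Fc F) (Φ (algebraMap K₀ K (x t))) =
      rmap (rmap (algebraMap F (Fc F))) (psi F (φ (x t)))
    rw [hΦK, rmap_rmap_psi, hφ']

/-- Purely transcendental extensions. -/
theorem Good.pure {K₀ K : Type} [Field K₀] [Algebra ℂ K₀] [Field K] [Algebra ℂ K]
    [Algebra K₀ K] [IsScalarTower ℂ K₀ K] (h : Good K₀) (y : K) (hy : Transcendental K₀ y)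
    (hgen : IntermediateField.adjoin K₀ ({y} : Set K) = ⊤) : Good K := by
  obtain ⟨F, _, _, _, φ, I, _, x, hx, hai⟩ := h
  refine Good.step φ x hx hai y 0 hy 0 (by simp) ?_
    (RatFunc.C (U F) + RatFunc.C (V F) * RatFunc.X) 0 (fun D _ _ h => h) (by simp)
  rw [← top_le_iff, ← hgen]
  exact IntermediateField.adjoin.mono K₀ _ _ (by simp)

/-- Function fields of conics. -/
theorem Good.conic {K₀ K : Type} [Field K₀] [Algebra ℂ K₀] [Field K] [Algebra ℂ K]
    [Algebra K₀ K] [IsScalarTower ℂ K₀ K] (h : Good K₀) (y z : K) (hy : Transcendental K₀ y)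
    (a c : K₀) (ha : a ≠ 0) (hc : c ≠ 0)
    (hz : z ^ 2 = algebraMap K₀ K a * y ^ 2 + algebraMap K₀ K c)
    (hgen : IntermediateField.adjoin K₀ ({y, z} : Set K) = ⊤) : Good K := by
  obtain ⟨F, _, _, _, φ, I, _, x, hx, hai⟩ := h
  have : CharZero F := charZero_of_injective_algebraMap (algebraMap ℂ F).injective
  have hφ0 : ∀ b : K₀, b ≠ 0 → φ b ≠ 0 := fun b hb h0 => hb (by
    have := φ.toRingHom.injective (a₁ := b) (a₂ := 0) (by simpa using h0)
    exact this)
  obtain ⟨y0, z0, h0⟩ := exists_conic_point (φ a) (φ c) (hφ0 a ha) (hφ0 c hc)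
  set ρ : RatFunc F →+* RatFunc (Fc F) := rmap (algebraMap F (Fc F)) with hρ
  set s : RatFunc (Fc F) := RatFunc.C (U F) + RatFunc.C (V F) * RatFunc.X with hs
  set A : RatFunc (Fc F) := ρ (φ a) with hA
  set B : RatFunc (Fc F) := ρ (φ c) with hB
  set y1 := ρ y0 with hy1
  set z1 := ρ z0 with hz1
  have e1 : z1 ^ 2 = A * y1 ^ 2 + B := by
    rw [hz1, hy1, hA, hB, ← map_pow, h0, map_add, map_mul, map_pow]
  have hA0 : A ≠ 0 := fun h => hφ0 a ha (ρ.injective (by rw [map_zero]; exact h))
  have hB0 : B ≠ 0 := fun h => hφ0 c hc (ρ.injective (by rw [map_zero]; exact h))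
  -- `s ^ 2 ≠ A`
  have hsA : s ^ 2 - A ≠ 0 := by
    intro h1
    -- then `s` is algebraic over the image of `F(t)`, against the independence
    refine ai_step_transc (U F) (V F) (trdeg_Fc F) (span_Fc F) 0 (fun D hD hR _ => ?_) X X_ne_zero
      (by simp)
    refine hD.quadratic (a := 1) (b := 0) (c := -A) (one_mem _) (zero_mem _)
      (neg_mem (hR _)) (Or.inl one_ne_zero) ?_
    rw [← hs, zero_mul, add_zero, one_mul, ← sub_eq_add_neg]
    exact h1
  set lam : RatFunc (Fc F) := 2 * (A * y1 - z1 * s) / (s ^ 2 - A) with hlam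
  have hlam' : lam * (s ^ 2 - A) = 2 * (A * y1 - z1 * s) := by
    rw [hlam, div_mul_cancel₀ _ hsA]
  refine Good.step φ x hx hai y z hy (C a * X ^ 2 + C c) (by simp [hz]) hgen (y1 + lam)
    (z1 + s * lam) (fun D hD hR hYD => ?_) ?_
  · have hy1D : y1 ∈ D := hR _
    have hz1D : z1 ∈ D := hR _
    have hAD : A ∈ D := hR _
    have hlD : lam ∈ D := by
      have := sub_mem hYD hy1D
      rwa [add_sub_cancel_left] at this
    refine hD.quadratic (a := lam) (b := 2 * z1) (c := -(lam * A) - 2 * (A * y1)) hlD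
      (mul_mem (by exact_mod_cast natCast_mem D 2) hz1D)
      (sub_mem (neg_mem (mul_mem hlD hAD)) (mul_mem (by exact_mod_cast natCast_mem D 2)
        (mul_mem hAD hy1D))) ?_ ?_
    · by_contra hcon
      push Not at hcon
      obtain ⟨hl0, hz0⟩ := hcon
      have h2 : z1 = 0 := by
        rcases mul_eq_zero.1 hz0 with h | h
        · exact absurd h two_ne_zero
        · exact h
      rw [hl0, h2] at hlam'
      have h3 : A * y1 = 0 := by
        have : 2 * (A * y1) = 0 := by linear_combination -hlam'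
        rcases mul_eq_zero.1 this with h | h
        · exact absurd h two_ne_zero
        · exact h
      rcases mul_eq_zero.1 h3 with h | h
      · exact hA0 h
      · rw [h2, h] at e1
        apply hB0
        linear_combination -e1
    · rw [← hs]
      linear_combination hlam'
  · have h2 : (C a * X ^ 2 + C c : K₀[X]).eval₂ (ρ.comp (φ : K₀ →+* RatFunc F)) (y1 + lam) =
        A * (y1 + lam) ^ 2 + B := by
      simp [hA, hB]
    rw [h2]
    linear_combination e1 + lam * hlam'

end Pool.Agent.Work.MP_4329d7_ag_sq
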