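import Mathlib
import Pool.Agent.Work.MP_4329d7_ag_sq.Alg
import Pool.Agent.Work.MP_4329d7_ag_sq.Good

/-!
The field `K₀` obtained by removing one coordinate, and `K` in terms of `K₀`.
-/

set_option linter.style.haveILetI false

namespace Pool.Agent.Work.MP_4329d7_ag_sq

open Polynomial

/-- `X` (a complex number or infinity) is a branch point of the cover `z ^ N = f`. -/
def BranchAt (N : ℕ) (f : ℂ[X]) : Option ℂ → Prop
  | some P => ¬ N ∣ f.rootMultiplicity P
  | none => ¬ N ∣ f.natDegree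

variable {K : Type} [Field K] [Algebra ℂ K]

/-- The data: independent `x_i` and a multiplicative set of `N`-th roots of products
`∏ f_i(x_i)`, no `f_i` having exactly three branch points, which generate the field. -/
structure RadData {ι : Type} [Fintype ι] (N : ℕ) (x : ι → K)
    (S : Submonoid (K × (ι → ℂ[X]))) : Prop where
  pos : 0 < N
  ai : AlgebraicIndependent ℂ x
  rad : ∀ p ∈ S, IsRad N x p.1 p.2
  gen : IntermediateField.adjoin ℂ (Set.range x ∪ Prod.fst '' (S : Set (K × (ι → ℂ[X])))) = ⊤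
  tri : ∀ p ∈ S, ∀ i, {X : Option ℂ | BranchAt N (p.2 i) X}.ncard ≠ 3

/-- algebraicity from generators. -/
theorem alg_of_gen {k : Type} [Field k] [Algebra ℂ k] [Algebra k K] [IsScalarTower ℂ k K]
    (T : Set K) (hT : IntermediateField.adjoin ℂ T = ⊤) (h : ∀ t ∈ T, IsAlgebraic k t) :
    Algebra.IsAlgebraic k K := by
  have h1 : (⊤ : IntermediateField ℂ K) ≤ (algebraicClosure k K).restrictScalars ℂ := by
    rw [← hT, IntermediateField.adjoin_le_iff]
    intro t ht
    exact mem_algebraicClosure_iff.2 (h t ht)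
  exact ⟨fun w => mem_algebraicClosure_iff.1 (h1 IntermediateField.mem_top)⟩

theorem mem_aeval (L : IntermediateField ℂ K) {y : K} (hy : y ∈ L) (f : ℂ[X]) :
    aeval y f ∈ L := by
  have h : aeval y f = L.val (aeval (⟨y, hy⟩ : L) f) := by
    rw [← Polynomial.aeval_algHom_apply]
    rfl
  rw [h]
  exact (aeval (⟨y, hy⟩ : L) f).2

theorem isAlgebraic_aeval {k : Type} [Field k] [Algebra ℂ k] [Algebra k K] [IsScalarTower ℂ k K]
    {y : K} (hy : IsAlgebraic k y) (f : ℂ[X]) : IsAlgebraic k (aeval y f) := by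
  have h2 : y ∈ (algebraicClosure k K).restrictScalars ℂ := mem_algebraicClosure_iff.2 hy
  exact mem_algebraicClosure_iff.1 (mem_aeval _ h2 f)

variable {ι : Type} [Fintype ι]

theorem RadData.alg {N : ℕ} {x : ι → K} {S : Submonoid (K × (ι → ℂ[X]))} (h : RadData N x S)
    {k : Type} [Field k] [Algebra ℂ k] [Algebra k K] [IsScalarTower ℂ k K]
    (hx : ∀ i, IsAlgebraic k (x i)) : Algebra.IsAlgebraic k K := by
  refine alg_of_gen _ h.gen fun t ht => ?_
  rcases ht with ⟨i, rfl⟩ | ⟨p, hp, rfl⟩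
  · exact hx i
  · refine IsAlgebraic.of_pow h.pos ?_
    rw [(h.rad p hp).2]
    have h2 : ∏ i, aeval (x i) (p.2 i) ∈ algebraicClosure k K :=
      prod_mem fun i _ => mem_algebraicClosure_iff.2 (isAlgebraic_aeval (hx i) _)
    exact mem_algebraicClosure_iff.1 h2

theorem RadData.tb {N : ℕ} {x : ι → K} {S : Submonoid (K × (ι → ℂ[X]))} (h : RadData N x S) :
    IsTranscendenceBasis ℂ x := by
  rw [h.ai.isTranscendenceBasis_iff_isAlgebraic]
  refine isAlgebraic_adjoin _ (h.alg (k := IntermediateField.adjoin ℂ (Set.range x)) fun i => ?_)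
  have : x i = algebraMap (IntermediateField.adjoin ℂ (Set.range x)) K
      ⟨x i, IntermediateField.subset_adjoin ℂ _ ⟨i, rfl⟩⟩ := rfl
  rw [this]
  exact isAlgebraic_algebraMap _

theorem RadData.ne_zero {N : ℕ} {x : ι → K} {S : Submonoid (K × (ι → ℂ[X]))} (h : RadData N x S)
    {p : K × (ι → ℂ[X])} (hp : p ∈ S) : p.1 ≠ 0 := by
  intro h0
  have h1 := (h.rad p hp).2
  rw [h0, zero_pow h.pos.ne'] at h1
  have h2 : ∏ i, aeval (x i) (p.2 i) ≠ 0 := by
    refine Finset.prod_ne_zero_iff.2 fun i _ h3 => ?_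
    exact h.ai.transcendental i ⟨p.2 i, (h.rad p hp).1 i, h3⟩
  exact h2 h1.symm

section K0

variable [DecidableEq ι] (N : ℕ) (x : ι → K) (S : Submonoid (K × (ι → ℂ[X]))) (i : ι)

/-- The field `ℂ(x_i)`. -/
noncomputable def Ei : IntermediateField ℂ K := IntermediateField.adjoin ℂ {x i}

/-- The condition: `f_i(x_i) = γ ^ N` and `w = p / γ`. -/
def RestCond (p : K × (ι → ℂ[X])) (w : K) : Prop :=
  ∃ γ ∈ Ei x i, γ ≠ 0 ∧ aeval (x i) (p.2 i) = γ ^ N ∧ w = p.1 / γ

/-- The field `K₀`. -/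
noncomputable def K0 : IntermediateField ℂ K :=
  IntermediateField.adjoin ℂ (Set.range (fun j : {j // j ≠ i} => x j) ∪
    {w | ∃ p ∈ S, RestCond N x i p w})

/-- The coordinates of `K₀`. -/
noncomputable def x0 : {j // j ≠ i} → K0 N x S i := fun j =>
  ⟨x j, IntermediateField.subset_adjoin ℂ _ (Or.inl ⟨j, rfl⟩)⟩

/-- The radicals of `K₀`. -/
def S0 : Submonoid (K0 N x S i × ({j // j ≠ i} → ℂ[X])) where
  carrier := {q | ∃ p ∈ S, RestCond N x i p (q.1 : K) ∧ q.2 = fun j : {j // j ≠ i} => p.2 j}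
  one_mem' := ⟨1, S.one_mem, ⟨1, one_mem _, one_ne_zero, by simp, by simp⟩, by
    funext j; simp⟩
  mul_mem' := by
    rintro q q' ⟨p, hp, ⟨γ, hγ, hγ0, h1, h2⟩, h3⟩ ⟨p', hp', ⟨γ', hγ', hγ0', h1', h2'⟩, h3'⟩
    refine ⟨p * p', S.mul_mem hp hp', ⟨γ * γ', mul_mem hγ hγ', mul_ne_zero hγ0 hγ0', ?_, ?_⟩, ?_⟩
    · rw [Prod.snd_mul, Pi.mul_apply, map_mul, h1, h1', mul_pow]
    · rw [Prod.fst_mul, Prod.fst_mul]
      push_cast
      rw [h2, h2', mul_div_mul_comm]
    · rw [Prod.snd_mul, h3, h3']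
      funext j
      simp

variable {N x S i}

theorem gen_of_adjoin (T : Set K) (L : IntermediateField ℂ K)
    (hL : L = IntermediateField.adjoin ℂ T) (T' : Set L) (hT : (fun a : L => (a : K)) '' T' = T) :
    IntermediateField.adjoin ℂ T' = ⊤ := by
  subst hL
  apply IntermediateField.map_injective (IntermediateField.adjoin ℂ T).val
  rw [IntermediateField.adjoin_map, ← AlgHom.fieldRange_eq_map, IntermediateField.fieldRange_val]
  congr 1

theorem RadData.restrict (h : RadData N x S) (i : ι) :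
    RadData N (x0 N x S i) (S0 N x S i) where
  pos := h.pos
  ai := by
    have h1 : AlgebraicIndependent ℂ (fun j : {j // j ≠ i} => x j) :=
      h.ai.comp Subtype.val Subtype.val_injective
    exact AlgebraicIndependent.of_comp (K0 N x S i).val h1
  rad := by
    rintro q ⟨p, hp, ⟨γ, hγ, hγ0, h1, h2⟩, h3⟩
    refine ⟨fun j => ?_, ?_⟩
    · rw [h3]
      exact (h.rad p hp).1 j
    · apply Subtype.ext
      change (K0 N x S i).val (q.1 ^ N) =
        (K0 N x S i).val (∏ j, aeval (x0 N x S i j) (q.2 j))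
      rw [map_pow, map_prod]
      have h4 : ∀ j : {j // j ≠ i}, (K0 N x S i).val (aeval (x0 N x S i j) (q.2 j)) =
          aeval (x j) (p.2 j) := by
        intro j
        rw [← Polynomial.aeval_algHom_apply, h3]
        rfl
      rw [Finset.prod_congr rfl (fun j _ => h4 j)]
      change (q.1 : K) ^ N = _
      rw [h2, div_pow, (h.rad p hp).2, Fintype.prod_eq_mul_prod_subtype_ne _ i, h1,
        mul_div_cancel_left₀ _ (pow_ne_zero _ hγ0)]
  gen := by
    refine gen_of_adjoin _ (K0 N x S i) rfl _ ?_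
    rw [Set.image_union]
    congr 1
    · rw [← Set.range_comp]
      rfl
    · ext w
      constructor
      · rintro ⟨a, ⟨q, ⟨p, hp, h1, -⟩, rfl⟩, rfl⟩
        exact ⟨p, hp, h1⟩
      · rintro ⟨p, hp, h1⟩
        refine ⟨⟨w, IntermediateField.subset_adjoin ℂ _ (Or.inr ⟨p, hp, h1⟩)⟩, ?_, rfl⟩
        exact ⟨(⟨w, _⟩, fun j : {j // j ≠ i} => p.2 j), ⟨p, hp, h1, rfl⟩, rfl⟩
  tri := by
    rintro q ⟨p, hp, -, h3⟩ j
    rw [h3]
    exact h.tri p hp j

/-- `K` is not algebraic over `K₀`. -/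
theorem RadData.not_alg (h : RadData N x S) (i : ι) : ¬ Algebra.IsAlgebraic (K0 N x S i) K := by
  intro halg
  have h1 := (h.restrict i).tb.cardinalMk_eq_trdeg
  have h2 := h.tb.cardinalMk_eq_trdeg
  have h3 := trdeg_add_eq ℂ (K0 N x S i) (A := K)
  rw [_root_.trdeg_eq_zero (R := K0 N x S i) (A := K), add_zero, ← h1, ← h2] at h3
  have h4 : Fintype.card {j // j ≠ i} = Fintype.card ι := by
    simpa using h3
  have h5 : Fintype.card {j // j ≠ i} < Fintype.card ι :=
    Fintype.card_subtype_lt (p := fun j => j ≠ i) (x := i) (by simp)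
  omega

omit [Fintype ι] [DecidableEq ι] in
theorem x_mem_K0 {j : ι} (hj : j ≠ i) : x j ∈ K0 N x S i :=
  IntermediateField.subset_adjoin ℂ _ (Or.inl ⟨⟨j, hj⟩, rfl⟩)

/-- `x_i` is transcendental over `K₀`. -/
theorem RadData.transc (h : RadData N x S) (i : ι) : Transcendental (K0 N x S i) (x i) := by
  intro halg
  refine h.not_alg i (h.alg fun j => ?_)
  by_cases hj : j = i
  · rw [hj]; exact halg
  · have : x j = algebraMap (K0 N x S i) K ⟨x j, x_mem_K0 hj⟩ := rfl
    rw [this]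
    exact isAlgebraic_algebraMap _

omit [Fintype ι] [DecidableEq ι] in
/-- elements of `ℂ(x_i)` are in every field containing `x_i`. -/
theorem mem_of_Ei {L : IntermediateField ℂ K} (hL : x i ∈ L) {γ : K} (hγ : γ ∈ Ei x i) : γ ∈ L := by
  have h1 : Ei x i ≤ L := by
    rw [Ei, IntermediateField.adjoin_le_iff]
    intro t ht
    rw [Set.mem_singleton_iff] at ht
    rw [ht]; exact hL
  exact h1 hγ

/-- `L` is everything as soon as it contains `x_i` and the radicals. -/
theorem RadData.top (h : RadData N x S) {L : IntermediateField (K0 N x S i) K} (hx : x i ∈ L)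
    (hS : ∀ p ∈ S, p.1 ∈ L) : L = ⊤ := by
  have h1 : (⊤ : IntermediateField ℂ K) ≤ L.restrictScalars ℂ := by
    rw [← h.gen, IntermediateField.adjoin_le_iff]
    rintro t (⟨j, rfl⟩ | ⟨p, hp, rfl⟩)
    · by_cases hj : j = i
      · rw [hj]; exact hx
      · exact L.algebraMap_mem ⟨x j, x_mem_K0 hj⟩
    · exact hS p hp
  rw [← top_le_iff]
  intro w _
  exact h1 IntermediateField.mem_top

omit [Fintype ι] [DecidableEq ι] in
theorem rest_mem {p : K × (ι → ℂ[X])} (hp : p ∈ S) {w : K} (hw : RestCond N x i p w) :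
    w ∈ K0 N x S i :=
  IntermediateField.subset_adjoin ℂ _ (Or.inr ⟨p, hp, hw⟩)

omit [Fintype ι] [DecidableEq ι] in
/-- radicals whose `i`-part is an `N`-th power. -/
theorem mem_of_pow {L : IntermediateField (K0 N x S i) K} (hx : x i ∈ L)
    {p : K × (ι → ℂ[X])} (hp : p ∈ S) {γ : K} (hγ : γ ∈ Ei x i) (hγ0 : γ ≠ 0)
    (h1 : aeval (x i) (p.2 i) = γ ^ N) : p.1 ∈ L := by
  have h2 : p.1 / γ ∈ L := L.algebraMap_mem ⟨_, rest_mem hp ⟨γ, hγ, hγ0, h1, rfl⟩⟩
  have h3 : γ ∈ L := mem_of_Ei (L := L.restrictScalars ℂ) hx hγ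
  have h4 : p.1 = p.1 / γ * γ := (div_mul_cancel₀ _ hγ0).symm
  rw [h4]
  exact mul_mem h2 h3

omit [Algebra ℂ K] [Fintype ι] [DecidableEq ι] in
/-- additive functions on powers. -/
theorem add_fun_pow {a : K × (ι → ℂ[X]) → ℕ} (ha : ∀ p ∈ S, ∀ q ∈ S, a (p * q) = a p + a q)
    {p : K × (ι → ℂ[X])} (hp : p ∈ S) (k : ℕ) : a (p ^ k) = k * a p := by
  have h1 : a 1 = 0 := by
    have := ha 1 S.one_mem 1 S.one_mem
    rw [one_mul] at this
    omega
  induction k with
  | zero => rw [pow_zero, h1, zero_mul]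
  | succ k ih =>
    rw [pow_succ, ha _ (S.pow_mem hp k) _ hp, ih]
    ring

/-- Two branch points. -/
theorem RadData.typeI (h : RadData N x S) {t : K} (ht : t ∈ Ei x i) (ht0 : t ≠ 0)
    (a : K × (ι → ℂ[X]) → ℕ) (ha : ∀ p ∈ S, ∀ q ∈ S, a (p * q) = a p + a q)
    (hrep : ∀ p ∈ S, ∃ γ ∈ Ei x i, γ ≠ 0 ∧ aeval (x i) (p.2 i) = γ ^ N * t ^ (a p))
    (hxt : ∀ L : IntermediateField ℂ K, t ∈ L → x i ∈ L) :
    ∃ u : K, Transcendental (K0 N x S i) u ∧
      IntermediateField.adjoin (K0 N x S i) ({u} : Set K) = ⊤ := by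
  have hN := h.pos
  -- the subgroup of exponents
  let A : AddSubgroup ℤ :=
    { carrier := {z | ∃ p ∈ S, (N : ℤ) ∣ z - a p}
      zero_mem' := ⟨1, S.one_mem, by
        have := add_fun_pow ha S.one_mem 0
        rw [pow_zero, zero_mul] at this
        rw [this]; simp⟩
      add_mem' := by
        rintro z w ⟨p, hp, h1⟩ ⟨q, hq, h2⟩
        refine ⟨p * q, S.mul_mem hp hq, ?_⟩
        rw [ha p hp q hq]
        push_cast
        have h3 := dvd_add h1 h2
        rwa [show z + w - ((a p : ℤ) + a q) = (z - a p) + (w - a q) by ring]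
      neg_mem' := by
        rintro z ⟨p, hp, h1⟩
        refine ⟨p ^ (N - 1), S.pow_mem hp _, ?_⟩
        rw [add_fun_pow ha hp]
        obtain ⟨k, hk⟩ := h1
        have hN1 : ((N - 1 : ℕ) : ℤ) = N - 1 := by omega
        push_cast
        rw [hN1]
        refine ⟨-k - a p, ?_⟩
        linear_combination -hk }
  have hNA : (N : ℤ) ∈ A := ⟨1, S.one_mem, by
    have := add_fun_pow ha S.one_mem 0
    rw [pow_zero, zero_mul] at this
    rw [this]; simp⟩
  obtain ⟨d, hd0, ⟨s0, hs0, k, hk⟩, hdiv⟩ := exists_gen A hN hNA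
  obtain ⟨e, he⟩ : ∃ e : ℕ, N = d * e := by
    have h1 := hdiv _ hNA
    exact_mod_cast h1
  have he0 : 0 < e := by
    rcases Nat.eq_zero_or_pos e with h0 | h0
    · rw [he, h0, mul_zero] at hN; exact absurd hN (lt_irrefl 0)
    · exact h0
  obtain ⟨γ0, hγ0, hγ00, hrep0⟩ := hrep s0 hs0
  have hs00 := h.ne_zero hs0
  -- `u`
  set u : K := s0.1 / (γ0 * t ^ (-k)) with hu
  set w : K := s0.1 ^ e / (γ0 ^ e * t ^ (1 - k * e)) with hw
  have hwK : w ∈ K0 N x S i := by
    refine rest_mem (S.pow_mem hs0 e) ⟨γ0 ^ e * t ^ (1 - k * e), ?_, ?_, ?_, ?_⟩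
    · exact mul_mem (pow_mem hγ0 e) (zpow_mem ht _)
    · exact mul_ne_zero (pow_ne_zero _ hγ00) (zpow_ne_zero _ ht0)
    · rw [Prod.pow_snd, Pi.pow_apply, map_pow, hrep0, mul_pow, mul_pow, ← pow_mul, ← pow_mul,
        mul_comm N e, ← pow_mul]
      congr 1
      rw [← zpow_natCast, ← zpow_natCast, ← zpow_mul]
      congr 1
      push_cast
      have h2 : (a s0 : ℤ) = d - N * k := by linarith
      rw [h2, he]
      push_cast
      ring
    · rw [Prod.pow_fst]
  have hw0 : w ≠ 0 := div_ne_zero (pow_ne_zero _ hs00)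
    (mul_ne_zero (pow_ne_zero _ hγ00) (zpow_ne_zero _ ht0))
  have huw : u ^ e = w * t := by
    rw [hu, hw, div_pow, mul_pow, ← zpow_natCast (t ^ (-k)), ← zpow_mul, div_mul_eq_mul_div,
      div_eq_div_iff (mul_ne_zero (pow_ne_zero _ hγ00) (zpow_ne_zero _ ht0))
        (mul_ne_zero (pow_ne_zero _ hγ00) (zpow_ne_zero _ ht0))]
    have h2 : t ^ (1 - k * (e : ℤ)) = t * t ^ (-k * (e : ℤ)) := by
      rw [show (1 - k * (e : ℤ)) = 1 + (-k * e) by ring, zpow_add₀ ht0, zpow_one]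
    rw [h2]
    ring
  set L := IntermediateField.adjoin (K0 N x S i) ({u} : Set K) with hL
  have huL : u ∈ L := IntermediateField.mem_adjoin_simple_self _ u
  have htL : t ∈ L := by
    have h2 : t = u ^ e / w := by rw [huw, mul_div_cancel_left₀ _ hw0]
    rw [h2]
    exact div_mem (pow_mem huL e) (L.algebraMap_mem ⟨w, hwK⟩)
  have hxL : x i ∈ L := hxt (L.restrictScalars ℂ) htL
  have hEL : ∀ γ ∈ Ei x i, γ ∈ L := fun γ hγ => mem_of_Ei (L := L.restrictScalars ℂ) hxL hγ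
  have hs0L : s0.1 ∈ L := by
    have h2 : s0.1 = u * (γ0 * t ^ (-k)) := by
      rw [hu, div_mul_cancel₀ _ (mul_ne_zero hγ00 (zpow_ne_zero _ ht0))]
    rw [h2]
    exact mul_mem huL (mul_mem (hEL _ hγ0) (zpow_mem htL _))
  have htop : L = ⊤ := by
    refine h.top hxL fun p hp => ?_
    have h2 : (d : ℤ) ∣ a p := hdiv _ ⟨p, hp, by simp⟩
    obtain ⟨c, hc⟩ : ∃ c : ℕ, a p = d * c := by exact_mod_cast h2
    obtain ⟨γ, hγ, hγn, hrepp⟩ := hrep p hp
    -- multiply by a power of `s0`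
    have h3 : ((a p + (e - 1) * c * a s0 : ℕ) : ℤ) = N * (c - (e - 1) * c * k) := by
      have h4 : (a s0 : ℤ) = d - N * k := by linarith
      have h5 : ((e - 1 : ℕ) : ℤ) = e - 1 := by omega
      push_cast
      rw [h5, h4, hc, he]
      push_cast
      ring
    have h6 : (p * s0 ^ ((e - 1) * c)).1 ∈ L := by
      refine mem_of_pow hxL (S.mul_mem hp (S.pow_mem hs0 _))
        (γ := γ * γ0 ^ ((e - 1) * c) * t ^ ((c : ℤ) - (e - 1) * c * k)) ?_ ?_ ?_
      · exact mul_mem (mul_mem hγ (pow_mem hγ0 _)) (zpow_mem ht _)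
      · exact mul_ne_zero (mul_ne_zero hγn (pow_ne_zero _ hγ00)) (zpow_ne_zero _ ht0)
      · rw [Prod.snd_mul, Pi.mul_apply, map_mul, Prod.pow_snd, Pi.pow_apply, map_pow, hrepp, hrep0]
        have h7 : (t ^ ((c : ℤ) - (e - 1) * c * k)) ^ N = t ^ (a p + (e - 1) * c * a s0) := by
          rw [← zpow_natCast, ← zpow_mul, ← zpow_natCast t, h3, mul_comm]
        have h8 : (γ * γ0 ^ ((e - 1) * c) * t ^ ((c : ℤ) - (e - 1) * c * k)) ^ N =
            (γ * γ0 ^ ((e - 1) * c)) ^ N * (t ^ ((c : ℤ) - (e - 1) * c * k)) ^ N := mul_pow _ _ _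
        rw [h8, h7]
        ring
    have h8 : p.1 = (p * s0 ^ ((e - 1) * c)).1 / s0.1 ^ ((e - 1) * c) := by
      rw [Prod.fst_mul, Prod.pow_fst, mul_div_cancel_right₀ _ (pow_ne_zero _ hs00)]
    rw [h8]
    exact div_mem h6 (pow_mem hs0L _)
  refine ⟨u, fun halg => ?_, htop⟩
  refine h.transc i ?_
  have h9 : u ∈ algebraicClosure (K0 N x S i) K := mem_algebraicClosure_iff.2 halg
  have h10 : L ≤ algebraicClosure (K0 N x S i) K := by
    rw [hL, IntermediateField.adjoin_le_iff]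
    intro z hz
    rw [Set.mem_singleton_iff] at hz
    rw [hz]; exact h9
  exact mem_algebraicClosure_iff.1 (h10 hxL)

end K0

end Pool.Agent.Work.MP_4329d7_ag_sq
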