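import Mathlib
import Pool.Agent.Work.MP_4329d7_ag_sq.Good

/-!
`Good K` implies rational connectedness in the sense of `FDefs`, for finitely generated `K`.
-/

set_option linter.style.haveILetI false

namespace Pool.Agent.Work.MP_4329d7_ag_sq

open Polynomial Pool.Agent.Work.MP_4329d7_ag.FF

/-- polynomials with coefficients in a subfield. -/
theorem exists_lift_poly {F : Type} [Field F] [Algebra ℂ F] (E : IntermediateField ℂ F) (p : F[X])
    (hp : ∀ n, p.coeff n ∈ E) : ∃ q : E[X], q.map (E.val : E →+* F) = p := by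
  have h1 : p ∈ Polynomial.lifts (E.val : E →+* F) := by
    rw [Polynomial.lifts_iff_coeff_lifts]
    intro n
    exact ⟨⟨p.coeff n, hp n⟩, rfl⟩
  rw [Polynomial.mem_lifts] at h1
  exact h1

theorem rc_of_good {K : Type} [Field K] [Algebra ℂ K] (hfg : Algebra.EssFiniteType ℂ K)
    (h : Good K) : RationallyConnected K := by
  classical
  obtain ⟨F, _, _, _, φ, I, _, x, hx, hai⟩ := h
  obtain ⟨s, hs⟩ := (IntermediateField.essFiniteType_iff (F := ℂ) (E := K) (K := ⊤)).1
    (by
      rw [← IntermediateField.fg_top_iff] at hfg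
      exact IntermediateField.essFiniteType_iff.2 hfg)
  -- the finitely many coefficients
  let c : Finset F := s.biUnion (fun g => (φ g).num.coeffs ∪ (φ g).denom.coeffs)
  let E : IntermediateField ℂ F := IntermediateField.adjoin ℂ (c : Set F)
  have hE : Algebra.EssFiniteType ℂ E :=
    IntermediateField.essFiniteType_iff.2 ⟨c, rfl⟩
  let ι : RatFunc E →ₐ[ℂ] RatFunc F := rmapA E.val
  have hι : ∀ g ∈ s, φ g ∈ ι.fieldRange := by
    intro g hg
    have hnum : ∀ n, (φ g).num.coeff n ∈ E := by
      intro n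
      by_cases h0 : (φ g).num.coeff n = 0
      · rw [h0]; exact zero_mem _
      · refine IntermediateField.subset_adjoin ℂ _ ?_
        rw [Finset.mem_coe, Finset.mem_biUnion]
        exact ⟨g, hg, Finset.mem_union_left _ (Polynomial.coeff_mem_coeffs h0)⟩
    have hden : ∀ n, (φ g).denom.coeff n ∈ E := by
      intro n
      by_cases h0 : (φ g).denom.coeff n = 0
      · rw [h0]; exact zero_mem _
      · refine IntermediateField.subset_adjoin ℂ _ ?_
        rw [Finset.mem_coe, Finset.mem_biUnion]
        exact ⟨g, hg, Finset.mem_union_right _ (Polynomial.coeff_mem_coeffs h0)⟩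
    obtain ⟨p, hp⟩ := exists_lift_poly E _ hnum
    obtain ⟨q, hq⟩ := exists_lift_poly E _ hden
    refine ⟨algebraMap E[X] (RatFunc E) p / algebraMap E[X] (RatFunc E) q, ?_⟩
    change ι _ = _
    have h1 : ∀ r : E[X], ι (algebraMap E[X] (RatFunc E) r) =
        algebraMap F[X] (RatFunc F) (r.map (E.val : E →+* F)) := fun r => rmap_algebraMap _ r
    rw [map_div₀, h1, h1, hp, hq, RatFunc.num_div_denom]
  have hrange : ∀ a : K, φ a ∈ ι.fieldRange := by
    intro a
    have h1 : (⊤ : IntermediateField ℂ K) ≤ ι.fieldRange.comap φ := by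
      rw [← hs, IntermediateField.adjoin_le_iff]
      intro g hg
      exact hι g hg
    exact h1 (IntermediateField.mem_top (x := a))
  let φ₀ : K →ₐ[ℂ] RatFunc E :=
    ((AlgEquiv.ofInjectiveField ι).symm.toAlgHom).comp (φ.codRestrict ι.fieldRange.toSubalgebra hrange)
  have hφ₀ : ∀ a, ι (φ₀ a) = φ a := by
    intro a
    have h1 := (AlgEquiv.ofInjectiveField ι).apply_symm_apply
      (φ.codRestrict ι.fieldRange.toSubalgebra hrange a)
    exact congrArg Subtype.val h1
  refine ⟨E, inferInstance, inferInstance, φ₀, psi E, hE, isSecondVariable_psi, ?_⟩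
  intro r a b ha hab
  refine linDis ((CA F).comp φ) ((psiA F).comp φ) x hx hai a b ha ?_
  have h1 := congrArg (rmap (ι : RatFunc E →+* RatFunc F)) hab
  rw [map_zero, map_sum] at h1
  rw [← h1]
  refine Finset.sum_congr rfl fun i _ => ?_
  rw [map_mul, rmap_C]
  have h2 : rmap (ι : RatFunc E →+* RatFunc F) (psi E (φ₀ (b i))) = psi F (ι (φ₀ (b i))) :=
    rmap_rmap_psi _ _
  rw [h2]
  change RatFunc.C (φ (a i)) * psi F (φ (b i)) = RatFunc.C (ι (φ₀ (a i))) * _
  rw [hφ₀, hφ₀]

end Pool.Agent.Work.MP_4329d7_ag_sq
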