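import Mathlib
import Pool.Agent.Work.MP_4329d7_ag_sq.Reduce

/-!
Three branch points: `K` is the function field of a conic over `K₀`.
-/

set_option linter.style.haveILetI false

namespace Pool.Agent.Work.MP_4329d7_ag_sq

open Polynomial

variable {K : Type} [Field K] [Algebra ℂ K] {ι : Type} [Fintype ι] [DecidableEq ι]
  {N : ℕ} {x : ι → K} {S : Submonoid (K × (ι → ℂ[X]))} {i : ι}

omit [DecidableEq ι] in
/-- one of the two square roots. -/
theorem RadData.root (h : RadData N x S) {A B : K} (hA : A ∈ Ei x i) (hB : B ∈ Ei x i)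
    (hA0 : A ≠ 0) (hB0 : B ≠ 0) {s : K × (ι → ℂ[X])} (hs : s ∈ S) {γ : K} (hγ : γ ∈ Ei x i)
    (hγ0 : γ ≠ 0) {a b : ℕ} (hrep : aeval (x i) (s.2 i) = γ ^ N * A ^ a * B ^ b)
    (h2a : N ∣ 2 * a) (ha : ¬ N ∣ a) (hb : N ∣ b) :
    ∃ u w g : K, w ∈ K0 N x S i ∧ w ≠ 0 ∧ u ^ 2 = w * A ∧ g ∈ Ei x i ∧ g ≠ 0 ∧ s.1 = u * g := by
  obtain ⟨k, hk⟩ := h2a
  obtain ⟨m, hm⟩ := hb
  have hodd : ∃ l, k = 2 * l + 1 := by
    rcases Nat.even_or_odd' k with ⟨l, hl | hl⟩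
    · exact absurd ⟨l, by rw [hl] at hk; nlinarith⟩ ha
    · exact ⟨l, hl⟩
  obtain ⟨l, hl⟩ := hodd
  have hs0 := h.ne_zero hs
  have hg0 : γ * A ^ l * B ^ m ≠ 0 :=
    mul_ne_zero (mul_ne_zero hγ0 (pow_ne_zero _ hA0)) (pow_ne_zero _ hB0)
  have hG0 : γ ^ 2 * A ^ k * B ^ (2 * m) ≠ 0 :=
    mul_ne_zero (mul_ne_zero (pow_ne_zero _ hγ0) (pow_ne_zero _ hA0)) (pow_ne_zero _ hB0)
  refine ⟨s.1 / (γ * A ^ l * B ^ m), s.1 ^ 2 / (γ ^ 2 * A ^ k * B ^ (2 * m)),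
    γ * A ^ l * B ^ m, ?_, ?_, ?_, ?_, hg0, ?_⟩
  · refine rest_mem (S.pow_mem hs 2) ⟨γ ^ 2 * A ^ k * B ^ (2 * m), ?_, hG0, ?_, ?_⟩
    · exact mul_mem (mul_mem (pow_mem hγ _) (pow_mem hA _)) (pow_mem hB _)
    · rw [Prod.pow_snd, Pi.pow_apply, map_pow, hrep]
      have e1 : (γ ^ 2 * A ^ k * B ^ (2 * m)) ^ N = γ ^ (2 * N) * A ^ (N * k) * B ^ (2 * (N * m)) := by
        ring
      rw [e1, ← hk, ← hm]
      ring
    · rw [Prod.pow_fst]
  · exact div_ne_zero (pow_ne_zero _ hs0) hG0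
  · have e1 : A ^ k = A ^ (2 * l) * A := by rw [hl, pow_succ]
    rw [e1, div_pow, div_mul_eq_mul_div, div_eq_div_iff (pow_ne_zero _ hg0) (e1 ▸ hG0)]
    ring
  · exact mul_mem (mul_mem hγ (pow_mem hA _)) (pow_mem hB _)
  · rw [div_mul_cancel₀ _ hg0]

theorem RadData.typeII (h : RadData N x S) {t : K} (ht : t ∈ Ei x i) {P Q : ℂ} (hPQ : P ≠ Q)
    (htP : t - algebraMap ℂ K P ≠ 0) (htQ : t - algebraMap ℂ K Q ≠ 0)
    (a b : K × (ι → ℂ[X]) → ℕ) (ha : ∀ p ∈ S, ∀ q ∈ S, a (p * q) = a p + a q)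
    (hb : ∀ p ∈ S, ∀ q ∈ S, b (p * q) = b p + b q)
    (hrep : ∀ p ∈ S, ∃ γ ∈ Ei x i, γ ≠ 0 ∧ aeval (x i) (p.2 i) =
      γ ^ N * (t - algebraMap ℂ K P) ^ (a p) * (t - algebraMap ℂ K Q) ^ (b p))
    (htri : ∀ p ∈ S, N ∣ a p ∨ N ∣ b p ∨ N ∣ a p + b p)
    (h1 : ∃ p ∈ S, ¬ N ∣ a p) (h2 : ∃ p ∈ S, ¬ N ∣ b p) (h3 : ∃ p ∈ S, ¬ N ∣ a p + b p)
    (hxt : ∀ L : IntermediateField ℂ K, t ∈ L → x i ∈ L) :
    ∃ (y z : K) (α c : K0 N x S i), α ≠ 0 ∧ c ≠ 0 ∧ Transcendental (K0 N x S i) y ∧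
      z ^ 2 = algebraMap (K0 N x S i) K α * y ^ 2 + algebraMap (K0 N x S i) K c ∧
      IntermediateField.adjoin (K0 N x S i) ({y, z} : Set K) = ⊤ := by
  have hdvd : ∀ n : ℕ, ((n : ZMod N) = 0) ↔ N ∣ n := fun n => ZMod.natCast_eq_zero_iff n N
  have ha1 : a 1 = 0 := by
    have := add_fun_pow ha S.one_mem 0
    rwa [pow_zero, zero_mul] at this
  have hb1 : b 1 = 0 := by
    have := add_fun_pow hb S.one_mem 0
    rwa [pow_zero, zero_mul] at this
  let U : AddSubgroup (ZMod N × ZMod N) :=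
    { carrier := {u | ∃ p ∈ S, u = ((a p : ZMod N), (b p : ZMod N))}
      zero_mem' := ⟨1, S.one_mem, by rw [ha1, hb1, Nat.cast_zero]; rfl⟩
      add_mem' := by
        rintro u v ⟨p, hp, rfl⟩ ⟨q, hq, rfl⟩
        refine ⟨p * q, S.mul_mem hp hq, ?_⟩
        rw [ha p hp q hq, hb p hp q hq]
        push_cast
        rfl
      neg_mem' := by
        rintro u ⟨p, hp, rfl⟩
        refine ⟨p ^ (N - 1), S.pow_mem hp _, ?_⟩
        rw [add_fun_pow ha hp, add_fun_pow hb hp]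
        have hN1 : ((N - 1 : ℕ) : ZMod N) = -1 := by
          have := h.pos
          rw [Nat.cast_sub (by omega)]
          simp
        push_cast
        rw [hN1]
        simp }
  obtain ⟨η, hη0, hη2, ⟨s1, hs1, hs1'⟩, ⟨s2, hs2, hs2'⟩, hall⟩ := klein U
    (by
      rintro u ⟨p, hp, rfl⟩
      rcases htri p hp with h' | h' | h'
      · exact Or.inl ((hdvd _).2 h')
      · exact Or.inr (Or.inl ((hdvd _).2 h'))
      · refine Or.inr (Or.inr ?_)
        have := (hdvd _).2 h'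
        push_cast at this
        exact this)
    (by
      obtain ⟨p, hp, h'⟩ := h1
      exact ⟨_, ⟨p, hp, rfl⟩, fun h0 => h' ((hdvd _).1 h0)⟩)
    (by
      obtain ⟨p, hp, h'⟩ := h2
      exact ⟨_, ⟨p, hp, rfl⟩, fun h0 => h' ((hdvd _).1 h0)⟩)
    (by
      obtain ⟨p, hp, h'⟩ := h3
      refine ⟨_, ⟨p, hp, rfl⟩, fun h0 => h' ((hdvd _).1 ?_)⟩
      push_cast
      exact h0)
  have hs1a : (a s1 : ZMod N) = η := (congrArg Prod.fst hs1').symm
  have hs1b : (b s1 : ZMod N) = 0 := (congrArg Prod.snd hs1').symm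
  have hs2a : (a s2 : ZMod N) = 0 := (congrArg Prod.fst hs2').symm
  have hs2b : (b s2 : ZMod N) = η := (congrArg Prod.snd hs2').symm
  set A : K := t - algebraMap ℂ K P with hA
  set B : K := t - algebraMap ℂ K Q with hB
  have hAE : A ∈ Ei x i := sub_mem ht ((Ei x i).algebraMap_mem P)
  have hBE : B ∈ Ei x i := sub_mem ht ((Ei x i).algebraMap_mem Q)
  obtain ⟨γ1, hγ1, hγ10, hrep1⟩ := hrep s1 hs1
  obtain ⟨γ2, hγ2, hγ20, hrep2⟩ := hrep s2 hs2
  obtain ⟨u1, w1, g1, hw1, hw10, hu1, hg1, hg10, hsu1⟩ := h.root hAE hBE htP htQ hs1 hγ1 hγ10 hrep1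
    ((hdvd _).1 (by push_cast; rw [hs1a, two_mul, hη2])) (fun h' => hη0 (by
      rw [← hs1a]; exact (hdvd _).2 h')) ((hdvd _).1 hs1b)
  obtain ⟨u2, w2, g2, hw2, hw20, hu2, hg2, hg20, hsu2⟩ := h.root hBE hAE htQ htP hs2 hγ2 hγ20
    (a := b s2) (b := a s2) (by rw [hrep2]; ring)
    ((hdvd _).1 (by push_cast; rw [hs2b, two_mul, hη2])) (fun h' => hη0 (by
      rw [← hs2b]; exact (hdvd _).2 h')) ((hdvd _).1 hs2a)
  have hPQ' : algebraMap ℂ K P - algebraMap ℂ K Q ≠ 0 := by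
    rw [← map_sub]
    intro h0
    exact hPQ (sub_eq_zero.1 ((algebraMap ℂ K).injective (by rw [h0, map_zero])))
  have ht1 : t = u1 ^ 2 / w1 + algebraMap ℂ K P := by
    rw [hu1, mul_div_cancel_left₀ _ hw10, hA]
    ring
  refine ⟨u1, u2, ⟨w2, hw2⟩ / ⟨w1, hw1⟩, ⟨w2, hw2⟩ * algebraMap ℂ (K0 N x S i) (P - Q),
    ?_, ?_, ?_, ?_, ?_⟩
  · refine div_ne_zero ?_ ?_
    · intro h0; exact hw20 (congrArg Subtype.val h0)
    · intro h0; exact hw10 (congrArg Subtype.val h0)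
  · refine mul_ne_zero ?_ ?_
    · intro h0; exact hw20 (congrArg Subtype.val h0)
    · intro h0
      exact hPQ (sub_eq_zero.1 ((algebraMap ℂ (K0 N x S i)).injective (by rw [h0, map_zero])))
  · -- transcendence
    intro halg
    refine h.transc i ?_
    have hcl : t ∈ (algebraicClosure (K0 N x S i) K).restrictScalars ℂ := by
      rw [ht1]
      have e1 : u1 ∈ algebraicClosure (K0 N x S i) K := mem_algebraicClosure_iff.2 halg
      have e2 : w1 ∈ algebraicClosure (K0 N x S i) K :=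
        (algebraicClosure (K0 N x S i) K).algebraMap_mem ⟨w1, hw1⟩
      exact add_mem (div_mem (pow_mem e1 2) e2) (IntermediateField.algebraMap_mem _ P)
    exact mem_algebraicClosure_iff.1 (hxt _ hcl)
  · have e1 : algebraMap (K0 N x S i) K (⟨w2, hw2⟩ / ⟨w1, hw1⟩) = w2 / w1 := by
      rw [map_div₀]; rfl
    have e2 : algebraMap (K0 N x S i) K (⟨w2, hw2⟩ * algebraMap ℂ (K0 N x S i) (P - Q)) =
        w2 * (algebraMap ℂ K P - algebraMap ℂ K Q) := by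
      rw [map_mul, ← IsScalarTower.algebraMap_apply, map_sub]
      rfl
    rw [e1, e2, hu2, hu1, hA, hB]
    field_simp
    ring
  · set L := IntermediateField.adjoin (K0 N x S i) ({u1, u2} : Set K) with hL
    have hu1L : u1 ∈ L := IntermediateField.subset_adjoin _ _ (Or.inl rfl)
    have hu2L : u2 ∈ L := IntermediateField.subset_adjoin _ _ (Or.inr rfl)
    have htL : t ∈ L := by
      rw [ht1]
      exact add_mem (div_mem (pow_mem hu1L 2) (L.algebraMap_mem ⟨w1, hw1⟩))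
        (IntermediateField.algebraMap_mem (L.restrictScalars ℂ) P)
    have hxL : x i ∈ L := hxt (L.restrictScalars ℂ) htL
    have hEL : ∀ γ ∈ Ei x i, γ ∈ L := fun γ hγ => mem_of_Ei (L := L.restrictScalars ℂ) hxL hγ
    have hs1L : s1.1 ∈ L := by rw [hsu1]; exact mul_mem hu1L (hEL _ hg1)
    have hs2L : s2.1 ∈ L := by rw [hsu2]; exact mul_mem hu2L (hEL _ hg2)
    -- radicals with both exponents divisible by `N`
    have hdiv : ∀ p ∈ S, (a p : ZMod N) = 0 → (b p : ZMod N) = 0 → p.1 ∈ L := by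
      intro p hp hpa hpb
      obtain ⟨k, hk⟩ := (hdvd _).1 hpa
      obtain ⟨m, hm⟩ := (hdvd _).1 hpb
      obtain ⟨γ, hγ, hγ0, hrepp⟩ := hrep p hp
      refine mem_of_pow hxL hp (γ := γ * A ^ k * B ^ m) ?_ ?_ ?_
      · exact mul_mem (mul_mem hγ (pow_mem hAE _)) (pow_mem hBE _)
      · exact mul_ne_zero (mul_ne_zero hγ0 (pow_ne_zero _ htP)) (pow_ne_zero _ htQ)
      · rw [hrepp, hk, hm]
        ring
    have hs10 := h.ne_zero hs1
    have hs20 := h.ne_zero hs2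
    refine h.top hxL fun p hp => ?_
    obtain ⟨hpa, hpb⟩ := hall _ ⟨p, hp, rfl⟩
    simp only at hpa hpb
    -- first make `b` divisible
    have step2 : ∀ p ∈ S, (a p : ZMod N) = 0 → ((b p : ZMod N) = 0 ∨ (b p : ZMod N) = η) →
        p.1 ∈ L := by
      intro p hp hpa hpb
      rcases hpb with hpb | hpb
      · exact hdiv p hp hpa hpb
      · have h4 := hdiv (p * s2) (S.mul_mem hp hs2)
          (by rw [ha p hp s2 hs2]; push_cast; rw [hpa, hs2a, add_zero])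
          (by rw [hb p hp s2 hs2]; push_cast; rw [hpb, hs2b, hη2])
        have h5 : p.1 = (p * s2).1 / s2.1 := by
          rw [Prod.fst_mul, mul_div_cancel_right₀ _ hs20]
        rw [h5]
        exact div_mem h4 hs2L
    rcases hpa with hpa | hpa
    · exact step2 p hp hpa hpb
    · have h4 := step2 (p * s1) (S.mul_mem hp hs1)
        (by rw [ha p hp s1 hs1]; push_cast; rw [hpa, hs1a, hη2])
        (by rw [hb p hp s1 hs1]; push_cast; rw [hs1b, add_zero]; exact hpb)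
      have h5 : p.1 = (p * s1).1 / s1.1 := by
        rw [Prod.fst_mul, mul_div_cancel_right₀ _ hs10]
      rw [h5]
      exact div_mem h4 hs1L

end Pool.Agent.Work.MP_4329d7_ag_sq
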