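import Mathlib
import Pool.Agent.Work.MP_4329d7_ag_sq.TypeII
import Pool.Agent.Work.MP_4329d7_ag_sq.RC

/-!
The main theorem: fields generated by `N`-th roots of products of one-variable polynomials.
-/

set_option linter.style.haveILetI false

namespace Pool.Agent.Work.MP_4329d7_ag_sq

open Polynomial Pool.Agent.Work.MP_4329d7_ag.FF

variable {K : Type} [Field K] [Algebra ℂ K] {ι : Type} [Fintype ι]
  {N : ℕ} {x : ι → K} {S : Submonoid (K × (ι → ℂ[X]))} {i : ι}

theorem RadData.sub_ne (h : RadData N x S) (i : ι) (P : ℂ) : x i - algebraMap ℂ K P ≠ 0 := by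
  intro h0
  apply h.ai.transcendental i
  rw [sub_eq_zero] at h0
  rw [h0]
  exact isAlgebraic_algebraMap P

omit [Fintype ι] in
theorem x_mem_Ei : x i ∈ Ei x i := IntermediateField.mem_adjoin_simple_self ℂ (x i)

omit [Fintype ι] in
theorem sub_mem_Ei (P : ℂ) : x i - algebraMap ℂ K P ∈ Ei x i :=
  sub_mem x_mem_Ei ((Ei x i).algebraMap_mem P)

/-- representation at a finite set containing the finite branch points. -/
theorem RadData.rep (h : RadData N x S) {p : K × (ι → ℂ[X])} (hp : p ∈ S) (B : Finset ℂ)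
    (hB : ∀ P, P ∉ B → N ∣ (p.2 i).rootMultiplicity P) :
    (∃ γ ∈ Ei x i, γ ≠ 0 ∧ aeval (x i) (p.2 i) = γ ^ N *
      ∏ P ∈ B, (x i - algebraMap ℂ K P) ^ (p.2 i).rootMultiplicity P) ∧
    ∃ D : ℕ, (p.2 i).natDegree = N * D + ∑ P ∈ B, (p.2 i).rootMultiplicity P := by
  obtain ⟨g, hg0, hg⟩ := decomp h.pos ((h.rad p hp).1 i) B hB
  refine ⟨⟨aeval (x i) g, mem_aeval _ x_mem_Ei g, ?_, ?_⟩, g.natDegree,
    decomp_natDegree hg0 B _ hg⟩
  · intro h0
    exact h.ai.transcendental i ⟨g, hg0, h0⟩
  · conv_lhs => rw [hg]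
    rw [map_mul, map_pow, map_prod]
    congr 1
    refine Finset.prod_congr rfl fun P _ => ?_
    simp

theorem RadData.mult_mul (h : RadData N x S) (P : ℂ) {p : K × (ι → ℂ[X])} (hp : p ∈ S)
    {q : K × (ι → ℂ[X])} (hq : q ∈ S) : ((p * q).2 i).rootMultiplicity P =
      (p.2 i).rootMultiplicity P + (q.2 i).rootMultiplicity P := by
  rw [Prod.snd_mul, Pi.mul_apply]
  exact rootMultiplicity_mul (mul_ne_zero ((h.rad p hp).1 i) ((h.rad q hq).1 i))

/-- not three branch points. -/
theorem RadData.three (h : RadData N x S) {p : K × (ι → ℂ[X])} (hp : p ∈ S) {A B C : Option ℂ}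
    (hAB : A ≠ B) (hAC : A ≠ C) (hBC : B ≠ C)
    (hall : ∀ X, BranchAt N (p.2 i) X → X = A ∨ X = B ∨ X = C) :
    ¬ BranchAt N (p.2 i) A ∨ ¬ BranchAt N (p.2 i) B ∨ ¬ BranchAt N (p.2 i) C := by
  by_contra hcon
  push Not at hcon
  apply h.tri p hp i
  rw [Set.ncard_eq_three]
  refine ⟨A, B, C, hAB, hAC, hBC, ?_⟩
  ext X
  constructor
  · intro hX
    simpa using hall X hX
  · intro hX
    simp only [Set.mem_insert_iff, Set.mem_singleton_iff] at hX
    rcases hX with rfl | rfl | rfl
    · exact hcon.1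
    · exact hcon.2.1
    · exact hcon.2.2

theorem ring_aux {K : Type} [Field K] (g A₁ B₁ A₂ B₂ X : K) (a b c : ℕ) :
    g * ((A₁ * X * A₂) ^ a * ((B₁ * X * B₂) ^ b * X ^ c)) =
      g * (A₁ ^ a * B₁ ^ b) * X ^ (a + (b + c)) * A₂ ^ a * B₂ ^ b := by
  ring

variable [DecidableEq ι]

/-- The reduction: if the coordinate `i` has at most three branch points in total then `K` is the
function field of a conic over `K₀`, or purely transcendental over `K₀`. -/
theorem RadData.reduce (h : RadData N x S) (i : ι) (F : Finset (Option ℂ))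
    (hF : ∀ X, (∃ p ∈ S, BranchAt N (p.2 i) X) ↔ X ∈ F) (hcard : F.card ≤ 3)
    (hgood : Good (K0 N x S i)) : Good K := by
  classical
  set B : Finset ℂ := Finset.eraseNone F with hB
  have hnB : ∀ p ∈ S, ∀ P, P ∉ B → N ∣ (p.2 i).rootMultiplicity P := by
    intro p hp P hP
    by_contra hcon
    exact hP (Finset.mem_eraseNone.2 ((hF (some P)).1 ⟨p, hp, hcon⟩))
  have hBF : ∀ P, P ∈ B → ∃ p ∈ S, ¬ N ∣ (p.2 i).rootMultiplicity P := by
    intro P hP
    exact (hF (some P)).2 (Finset.mem_eraseNone.1 hP)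
  have hBle : B.card ≤ 3 := (Finset.card_eraseNone_le F).trans hcard
  -- purely transcendental case
  have caseI : (∃ u : K, Transcendental (K0 N x S i) u ∧
      IntermediateField.adjoin (K0 N x S i) ({u} : Set K) = ⊤) → Good K := by
    rintro ⟨u, hu, hgen⟩
    exact Good.pure hgood u hu hgen
  have caseII : (∃ (y z : K) (α c : K0 N x S i), α ≠ 0 ∧ c ≠ 0 ∧
      Transcendental (K0 N x S i) y ∧
      z ^ 2 = algebraMap (K0 N x S i) K α * y ^ 2 + algebraMap (K0 N x S i) K c ∧
      IntermediateField.adjoin (K0 N x S i) ({y, z} : Set K) = ⊤) → Good K := by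
    rintro ⟨y, z, α, c, hα, hc, hy, hz, hgen⟩
    exact Good.conic hgood y z hy α c hα hc hz hgen
  have hcases : B.card ≤ 1 ∨ B.card = 2 ∨ B.card = 3 := by omega
  rcases hcases with hc | hc | hc
  · -- at most one finite branch point
    obtain ⟨P, hP⟩ := Finset.card_le_one_iff_subset_singleton.1 hc
    refine caseI (h.typeI (t := x i - algebraMap ℂ K P) (sub_mem_Ei P) (h.sub_ne i P)
      (fun p => (p.2 i).rootMultiplicity P) (fun p hp q hq => h.mult_mul P hp hq)
      (fun p hp => ?_) (fun L hL => ?_))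
    · obtain ⟨⟨γ, hγ, hγ0, hrep⟩, -⟩ := h.rep (i := i) hp {P} (fun Q hQ => hnB p hp Q
        (fun h' => hQ (hP h')))
      exact ⟨γ, hγ, hγ0, by rw [hrep, Finset.prod_singleton]⟩
    · have := add_mem hL (L.algebraMap_mem P)
      rwa [sub_add_cancel] at this
  · obtain ⟨P, Q, hPQ, hBeq⟩ := Finset.card_eq_two.1 hc
    have hrep2 : ∀ p ∈ S, (∃ γ ∈ Ei x i, γ ≠ 0 ∧ aeval (x i) (p.2 i) = γ ^ N *
        (x i - algebraMap ℂ K P) ^ (p.2 i).rootMultiplicity P *
        (x i - algebraMap ℂ K Q) ^ (p.2 i).rootMultiplicity Q) ∧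
        (N ∣ (p.2 i).natDegree ↔
          N ∣ (p.2 i).rootMultiplicity P + (p.2 i).rootMultiplicity Q) := by
      intro p hp
      obtain ⟨⟨γ, hγ, hγ0, hrep⟩, D, hD⟩ := h.rep (i := i) hp B (hnB p hp)
      rw [hBeq, Finset.prod_pair hPQ] at hrep
      rw [hBeq, Finset.sum_pair hPQ] at hD
      refine ⟨⟨γ, hγ, hγ0, by rw [hrep, mul_assoc]⟩, ?_⟩
      rw [hD]
      exact (Nat.dvd_add_right (dvd_mul_right N D))
    by_cases hnone : none ∈ F
    · -- three branch points, one of them infinite
      refine caseII (h.typeII (t := x i) x_mem_Ei hPQ (h.sub_ne i P) (h.sub_ne i Q)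
        (fun p => (p.2 i).rootMultiplicity P) (fun p => (p.2 i).rootMultiplicity Q)
        (fun p hp q hq => h.mult_mul P hp hq) (fun p hp q hq => h.mult_mul Q hp hq)
        (fun p hp => (hrep2 p hp).1) (fun p hp => ?_)
        (hBF P (by rw [hBeq]; simp)) (hBF Q (by rw [hBeq]; simp)) ?_ (fun L hL => hL))
      · have h3 := h.three (i := i) hp (A := some P) (B := some Q) (C := none)
          (by simpa using hPQ) (by simp) (by simp) (fun X hX => by
            have hXF := (hF X).1 ⟨p, hp, hX⟩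
            cases X with
            | none => exact Or.inr (Or.inr rfl)
            | some R =>
              have hR : R ∈ B := Finset.mem_eraseNone.2 hXF
              rw [hBeq] at hR
              simp only [Finset.mem_insert, Finset.mem_singleton] at hR
              rcases hR with rfl | rfl
              · exact Or.inl rfl
              · exact Or.inr (Or.inl rfl))
        rcases h3 with h3 | h3 | h3
        · exact Or.inl (not_not.1 h3)
        · exact Or.inr (Or.inl (not_not.1 h3))
        · exact Or.inr (Or.inr ((hrep2 p hp).2.1 (not_not.1 h3)))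
      · obtain ⟨p, hp, hpn⟩ := (hF none).2 hnone
        exact ⟨p, hp, fun h' => hpn ((hrep2 p hp).2.2 h')⟩
    · -- two branch points, both finite
      have hdeg : ∀ p ∈ S, N ∣ (p.2 i).rootMultiplicity P + (p.2 i).rootMultiplicity Q := by
        intro p hp
        refine (hrep2 p hp).2.1 ?_
        by_contra hcon
        exact hnone ((hF none).1 ⟨p, hp, hcon⟩)
      have hQ0 := h.sub_ne i Q
      have hP0 := h.sub_ne i P
      have hPQ' : algebraMap ℂ K P - algebraMap ℂ K Q ≠ 0 := by
        rw [← map_sub]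
        intro h0
        exact hPQ (sub_eq_zero.1 ((algebraMap ℂ K).injective (by rw [h0, map_zero])))
      refine caseI (h.typeI (t := (x i - algebraMap ℂ K P) / (x i - algebraMap ℂ K Q))
        (div_mem (sub_mem_Ei P) (sub_mem_Ei Q)) (div_ne_zero hP0 hQ0)
        (fun p => (p.2 i).rootMultiplicity P) (fun p hp q hq => h.mult_mul P hp hq)
        (fun p hp => ?_) (fun L hL => ?_))
      · obtain ⟨γ, hγ, hγ0, hrep⟩ := (hrep2 p hp).1
        obtain ⟨k, hk⟩ := hdeg p hp
        refine ⟨γ * (x i - algebraMap ℂ K Q) ^ k, mul_mem hγ (pow_mem (sub_mem_Ei Q) k),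
          mul_ne_zero hγ0 (pow_ne_zero _ hQ0), ?_⟩
        rw [hrep]
        have e1 : (γ * (x i - algebraMap ℂ K Q) ^ k) ^ N = γ ^ N *
            ((x i - algebraMap ℂ K Q) ^ ((p.2 i).rootMultiplicity P) *
              (x i - algebraMap ℂ K Q) ^ ((p.2 i).rootMultiplicity Q)) := by
          rw [← pow_add, hk]
          ring
        rw [e1, div_pow]
        field_simp
      · -- recover `x_i`
        set t := (x i - algebraMap ℂ K P) / (x i - algebraMap ℂ K Q) with ht
        have e1 : 1 - t = (algebraMap ℂ K P - algebraMap ℂ K Q) / (x i - algebraMap ℂ K Q) := by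
          rw [ht]
          field_simp
          ring
        have e2 : x i = algebraMap ℂ K Q + (algebraMap ℂ K P - algebraMap ℂ K Q) / (1 - t) := by
          rw [e1]
          field_simp
          ring
        rw [e2]
        exact add_mem (L.algebraMap_mem Q) (div_mem (sub_mem (L.algebraMap_mem P)
          (L.algebraMap_mem Q)) (sub_mem (one_mem L) hL))
  · -- three finite branch points
    obtain ⟨P, Q, R, hPQ, hPR, hQR, hBeq⟩ := Finset.card_eq_three.1 hc
    have hnone : none ∉ F := by
      intro hn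
      have := Finset.card_eraseNone_of_mem hn
      rw [← hB, hc] at this
      have h1 : 0 < F.card := Finset.card_pos.2 ⟨none, hn⟩
      omega
    have hrep3 : ∀ p ∈ S, (∃ γ ∈ Ei x i, γ ≠ 0 ∧ aeval (x i) (p.2 i) = γ ^ N *
        ((x i - algebraMap ℂ K P) ^ (p.2 i).rootMultiplicity P *
        ((x i - algebraMap ℂ K Q) ^ (p.2 i).rootMultiplicity Q *
        (x i - algebraMap ℂ K R) ^ (p.2 i).rootMultiplicity R))) ∧
        N ∣ (p.2 i).rootMultiplicity P + ((p.2 i).rootMultiplicity Q +
          (p.2 i).rootMultiplicity R) := by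
      intro p hp
      obtain ⟨⟨γ, hγ, hγ0, hrep⟩, D, hD⟩ := h.rep (i := i) hp B (hnB p hp)
      have hnP : P ∉ ({Q, R} : Finset ℂ) := by simp [hPQ, hPR]
      rw [hBeq, Finset.prod_insert hnP, Finset.prod_pair hQR] at hrep
      rw [hBeq, Finset.sum_insert hnP, Finset.sum_pair hQR] at hD
      refine ⟨⟨γ, hγ, hγ0, hrep⟩, ?_⟩
      have h1 : N ∣ (p.2 i).natDegree := by
        by_contra hcon
        exact hnone ((hF none).1 ⟨p, hp, hcon⟩)
      rw [hD] at h1
      exact (Nat.dvd_add_right (dvd_mul_right N D)).1 h1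
    have hR0 := h.sub_ne i R
    have hPR' : P - R ≠ 0 := sub_ne_zero.2 hPR
    have hQR' : Q - R ≠ 0 := sub_ne_zero.2 hQR
    have hne' : ∀ c : ℂ, c ≠ 0 → algebraMap ℂ K c ≠ 0 := fun c hc h0 =>
      hc ((algebraMap ℂ K).injective (by rw [h0, map_zero]))
    have hsub : ∀ Y : ℂ, Y - R ≠ 0 → x i - algebraMap ℂ K Y =
        algebraMap ℂ K (-(Y - R)) * (x i - algebraMap ℂ K R) *
          ((x i - algebraMap ℂ K R)⁻¹ - algebraMap ℂ K (Y - R)⁻¹) := by
      intro Y hY
      have h1 := hne' _ hY
      rw [map_neg, map_inv₀]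
      field_simp
      rw [map_sub]
      ring
    have htne : ∀ Y : ℂ, Y - R ≠ 0 →
        (x i - algebraMap ℂ K R)⁻¹ - algebraMap ℂ K (Y - R)⁻¹ ≠ 0 := by
      intro Y hY h0
      have h1 := hsub Y hY
      rw [h0, mul_zero] at h1
      exact h.sub_ne i Y h1
    refine caseII (h.typeII (t := (x i - algebraMap ℂ K R)⁻¹) (inv_mem (sub_mem_Ei R))
      (P := (P - R)⁻¹) (Q := (Q - R)⁻¹)
      (fun h' => hPQ (by
        have := inv_injective h'
        exact sub_left_injective this)) (htne P hPR') (htne Q hQR')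
      (fun p => (p.2 i).rootMultiplicity P) (fun p => (p.2 i).rootMultiplicity Q)
      (fun p hp q hq => h.mult_mul P hp hq) (fun p hp q hq => h.mult_mul Q hp hq)
      (fun p hp => ?_) (fun p hp => ?_)
      (hBF P (by rw [hBeq]; simp)) (hBF Q (by rw [hBeq]; simp)) ?_ (fun L hL => ?_))
    · obtain ⟨⟨γ, hγ, hγ0, hrep⟩, k, hk⟩ := hrep3 p hp
      obtain ⟨c', hc'⟩ := IsAlgClosed.exists_pow_nat_eq
        ((-(P - R)) ^ (p.2 i).rootMultiplicity P * (-(Q - R)) ^ (p.2 i).rootMultiplicity Q) h.pos
      have hc0 : c' ≠ 0 := by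
        rintro rfl
        rw [zero_pow h.pos.ne'] at hc'
        exact mul_ne_zero (pow_ne_zero _ (neg_ne_zero.2 hPR'))
          (pow_ne_zero _ (neg_ne_zero.2 hQR')) hc'.symm
      refine ⟨γ * algebraMap ℂ K c' * (x i - algebraMap ℂ K R) ^ k,
        mul_mem (mul_mem hγ ((Ei x i).algebraMap_mem c')) (pow_mem (sub_mem_Ei R) k),
        mul_ne_zero (mul_ne_zero hγ0 (hne' _ hc0)) (pow_ne_zero _ hR0), ?_⟩
      rw [hrep]
      conv_lhs => rw [hsub P hPR', hsub Q hQR']
      have e1 : (γ * algebraMap ℂ K c' * (x i - algebraMap ℂ K R) ^ k) ^ N =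
          γ ^ N * algebraMap ℂ K (c' ^ N) * ((x i - algebraMap ℂ K R) ^ (N * k)) := by
        rw [map_pow]
        ring
      rw [e1, hc', ← hk, map_mul, map_pow, map_pow]
      exact ring_aux _ _ _ _ _ _ _ _ _
    · have h3 := h.three (i := i) hp (A := some P) (B := some Q) (C := some R)
        (by simpa using hPQ) (by simpa using hPR) (by simpa using hQR) (fun X hX => by
          have hXF := (hF X).1 ⟨p, hp, hX⟩
          cases X with
          | none => exact absurd hXF hnone
          | some Y =>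
            have hR : Y ∈ B := Finset.mem_eraseNone.2 hXF
            rw [hBeq] at hR
            simp only [Finset.mem_insert, Finset.mem_singleton] at hR
            rcases hR with rfl | rfl | rfl
            · exact Or.inl rfl
            · exact Or.inr (Or.inl rfl)
            · exact Or.inr (Or.inr rfl))
      rcases h3 with h3 | h3 | h3
      · exact Or.inl (not_not.1 h3)
      · exact Or.inr (Or.inl (not_not.1 h3))
      · refine Or.inr (Or.inr ?_)
        have h4 := (hrep3 p hp).2
        rw [← add_assoc] at h4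
        exact (Nat.dvd_add_left (not_not.1 h3)).1 h4
    · obtain ⟨p, hp, hpR⟩ := hBF R (by rw [hBeq]; simp)
      refine ⟨p, hp, fun h' => hpR ?_⟩
      have h4 := (hrep3 p hp).2
      rw [← add_assoc] at h4
      exact (Nat.dvd_add_right h').1 h4
    · have := add_mem (inv_mem hL) (L.algebraMap_mem R)
      rwa [inv_inv, sub_add_cancel] at this

theorem main_aux : ∀ (n : ℕ) (K : Type) [Field K] [Algebra ℂ K] (ι : Type) [Fintype ι]
    [DecidableEq ι] (N : ℕ) (x : ι → K) (S : Submonoid (K × (ι → ℂ[X]))),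
    RadData N x S → Fintype.card ι = n →
    Good K ∨ ∃ j, 1 ≤ j ∧ j ≤ n ∧ ∃ T : TensorForm K (2 * j), IsRegular T ∧ T ≠ 0 := by
  classical
  intro n
  induction n with
  | zero =>
    intro K _ _ ι _ _ N x S h hcard
    left
    have hemp : IsEmpty ι := Fintype.card_eq_zero_iff.1 hcard
    have : Algebra.IsAlgebraic ℂ K := h.alg (k := ℂ) (fun i => (hemp.false i).elim)
    exact Good.of_isAlgebraic
  | succ n ih =>
    intro K _ _ ι _ _ N x S h hcard
    by_cases hall : ∀ i, ∃ F : Finset (Option ℂ), 4 ≤ F.card ∧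
        ∀ X ∈ F, ∃ p ∈ S, BranchAt N (p.2 i) X
    · right
      choose F hF4 hF using hall
      obtain ⟨T, hT, hT0⟩ := terminal (N := N) x h.tb (fun i => Finset.eraseNone (F i))
        (fun i => decide (none ∈ F i)) (fun i => by
          refine ⟨fun P hP => ?_, fun hb => ?_, ?_, fun hb => ?_⟩
          · obtain ⟨p, hp, hpP⟩ := hF i (some P) (Finset.mem_eraseNone.1 hP)
            exact ⟨p.1, p.2, h.rad p hp, hpP⟩
          · obtain ⟨p, hp, hpP⟩ := hF i none (of_decide_eq_true hb)
            exact ⟨p.1, p.2, h.rad p hp, hpP⟩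
          · have h4 := hF4 i
            by_cases hn : none ∈ F i
            · rw [Finset.card_eraseNone_of_mem hn]; omega
            · rw [Finset.card_eraseNone_of_not_mem hn]; omega
          · have h4 := hF4 i
            rw [Finset.card_eraseNone_of_not_mem (of_decide_eq_false hb)]
            exact h4)
      exact ⟨Fintype.card ι, by omega, hcard.le, T, hT, hT0⟩
    · push Not at hall
      obtain ⟨i, hi⟩ := hall
      -- the finite set of branch points
      have hfin : {X : Option ℂ | ∃ p ∈ S, BranchAt N (p.2 i) X}.Finite := by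
        by_contra hinf
        obtain ⟨F, hF, hF4⟩ := Set.Infinite.exists_subset_card_eq hinf 4
        obtain ⟨X, hX, hX'⟩ := hi F (by omega)
        obtain ⟨p, hp, hpX⟩ := hF hX
        exact hX' p hp hpX
      have hF : ∀ X, (∃ p ∈ S, BranchAt N (p.2 i) X) ↔ X ∈ hfin.toFinset := by
        intro X
        rw [Set.Finite.mem_toFinset]
        rfl
      have hcardF : hfin.toFinset.card ≤ 3 := by
        by_contra hcon
        obtain ⟨X, hX, hX'⟩ := hi hfin.toFinset (by omega)
        obtain ⟨p, hp, hpX⟩ := (hF X).2 hX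
        exact hX' p hp hpX
      have hcard' : Fintype.card {j // j ≠ i} = n := by
        have h1 : Fintype.card {j // j ≠ i} = Fintype.card ι - 1 := by
          rw [Fintype.card_subtype_compl, Fintype.card_subtype_eq]
        omega
      rcases ih (K0 N x S i) {j // j ≠ i} N (x0 N x S i) (S0 N x S i) (h.restrict i) hcard' with
        hg | ⟨j, hj1, hjn, T, hT, hT0⟩
      · exact Or.inl (h.reduce i hfin.toFinset hF hcardF hg)
      · right
        obtain ⟨Fr, -⟩ := ratExt_exists_frame (x0 N x S i) (h.restrict i).tb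
        obtain ⟨T', hT', hT0'⟩ := exists_regular_extension (L := K) Fr ⟨T, hT, hT0⟩
        exact ⟨j, hj1, by omega, T', hT', hT0'⟩

/-- The main theorem. -/
theorem main_rad {K : Type} [Field K] [Algebra ℂ K] (hfg : Algebra.EssFiniteType ℂ K) {n : ℕ}
    {N : ℕ} {x : Fin n → K} {S : Submonoid (K × (Fin n → ℂ[X]))} (h : RadData N x S)
    (hvan : ∀ j, 1 ≤ j → j ≤ n → ∀ T : TensorForm K (2 * j), IsRegular T → T = 0) :
    RationallyConnected K := by
  rcases main_aux n K (Fin n) N x S h (Fintype.card_fin n) with hg | ⟨j, hj1, hjn, T, hT, hT0⟩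
  · exact rc_of_good hfg hg
  · exact absurd (hvan j hj1 hjn T hT) hT0

end Pool.Agent.Work.MP_4329d7_ag_sq
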