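import Mathlib
import Pool.Agent.Work.MP_4329d7_ag_sq.Main

/-!
The cases `N = 2` (no hypothesis on branch points) and cyclic covers of prime degree.
-/

set_option linter.style.haveILetI false

namespace Pool.Agent.Work.MP_4329d7_ag_sq

open Polynomial Pool.Agent.Work.MP_4329d7_ag.FF

/-- The number of branch points of a double cover of the line is even. -/
theorem ncard_branch_two {f : ℂ[X]} (hf : f ≠ 0) :
    Even {X : Option ℂ | BranchAt 2 f X}.ncard := by
  classical
  set R : Finset ℂ := f.roots.toFinset.filter (fun P => Odd (f.rootMultiplicity P)) with hR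
  have hRmem : ∀ P, P ∈ R ↔ ¬ 2 ∣ f.rootMultiplicity P := by
    intro P
    rw [hR, Finset.mem_filter, Multiset.mem_toFinset]
    constructor
    · rintro ⟨-, h⟩ h'
      exact (Nat.not_even_iff_odd.2 h) (even_iff_two_dvd.2 h')
    · intro h
      have h1 : Odd (f.rootMultiplicity P) :=
        Nat.not_even_iff_odd.1 (fun h' => h (even_iff_two_dvd.1 h'))
      refine ⟨?_, h1⟩
      rw [mem_roots hf, ← rootMultiplicity_pos hf]
      exact h1.pos
  have hdeg : Odd f.natDegree ↔ Odd R.card := by
    have h1 : f.natDegree = ∑ P ∈ f.roots.toFinset, f.rootMultiplicity P := by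
      rw [(IsAlgClosed.splits f).natDegree_eq_card_roots, ← Multiset.toFinset_sum_count_eq]
      refine Finset.sum_congr rfl fun P _ => ?_
      rw [count_roots]
    rw [h1, Finset.odd_sum_iff_odd_card_odd]
  by_cases hodd : Odd f.natDegree
  · have hset : {X : Option ℂ | BranchAt 2 f X} = ((Finset.insertNone R : Finset (Option ℂ)) : Set (Option ℂ)) := by
      ext X
      cases X with
      | none =>
        simp only [Set.mem_setOf_eq, Finset.mem_coe, Finset.none_mem_insertNone, iff_true]
        intro h'
        exact (Nat.not_even_iff_odd.2 hodd) (even_iff_two_dvd.2 h')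
      | some P =>
        simp only [Set.mem_setOf_eq, Finset.mem_coe, Finset.some_mem_insertNone]
        exact (hRmem P).symm
    rw [hset, Set.ncard_coe_finset, Finset.card_insertNone]
    exact (hdeg.1 hodd).add_one
  · have hset : {X : Option ℂ | BranchAt 2 f X} = ((R.image some : Finset (Option ℂ)) : Set (Option ℂ)) := by
      ext X
      cases X with
      | none =>
        simp only [Set.mem_setOf_eq, Finset.mem_coe, Finset.mem_image, reduceCtorEq, and_false,
          exists_false, iff_false]
        intro h'
        exact h' (even_iff_two_dvd.1 (Nat.not_odd_iff_even.1 hodd))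
      | some P =>
        simp only [Set.mem_setOf_eq, Finset.mem_coe, Finset.mem_image, Option.some.injEq,
          exists_eq_right]
        exact (hRmem P).symm
    rw [hset, Set.ncard_coe_finset, Finset.card_image_of_injective _ (Option.some_injective ℂ)]
    rw [← Nat.not_odd_iff_even, ← hdeg]
    exact hodd

/-- Square roots of products of one-variable polynomials. -/
theorem main_two {K : Type} [Field K] [Algebra ℂ K] (hfg : Algebra.EssFiniteType ℂ K) {n : ℕ}
    {x : Fin n → K} (hx : AlgebraicIndependent ℂ x) (W : Set K)
    (hW : ∀ w ∈ W, ∃ f : Fin n → ℂ[X], w ^ 2 = ∏ i, aeval (x i) (f i))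
    (hgen : IntermediateField.adjoin ℂ (Set.range x ∪ W) = ⊤)
    (hvan : ∀ j, 1 ≤ j → j ≤ n → ∀ T : TensorForm K (2 * j), IsRegular T → T = 0) :
    RationallyConnected K := by
  let S : Submonoid (K × (Fin n → ℂ[X])) :=
    { carrier := {p | IsRad 2 x p.1 p.2}
      one_mem' := ⟨fun i => by simp, by simp⟩
      mul_mem' := by
        rintro p q ⟨h1, h2⟩ ⟨h3, h4⟩
        refine ⟨fun i => ?_, ?_⟩
        · rw [Prod.snd_mul, Pi.mul_apply]
          exact mul_ne_zero (h1 i) (h3 i)
        · rw [Prod.fst_mul, mul_pow, h2, h4, ← Finset.prod_mul_distrib]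
          refine Finset.prod_congr rfl fun i _ => ?_
          rw [Prod.snd_mul, Pi.mul_apply, map_mul] }
  have h : RadData 2 x S :=
    { pos := by norm_num
      ai := hx
      rad := fun p hp => hp
      gen := by
        rw [← top_le_iff, ← hgen, IntermediateField.adjoin_le_iff]
        rintro t (⟨i, rfl⟩ | ht)
        · exact IntermediateField.subset_adjoin _ _ (Or.inl ⟨i, rfl⟩)
        · obtain ⟨f, hf⟩ := hW t ht
          by_cases h0 : ∀ i, f i ≠ 0
          · exact IntermediateField.subset_adjoin _ _ (Or.inr ⟨(t, f), ⟨h0, hf⟩, rfl⟩)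
          · push Not at h0
            obtain ⟨i, hi⟩ := h0
            rw [Finset.prod_eq_zero (Finset.mem_univ i) (by rw [hi, map_zero])] at hf
            have ht0 : t = 0 := by
              rcases pow_eq_zero_iff (two_ne_zero) |>.1 hf with h
              exact h
            rw [ht0]
            exact zero_mem _
      tri := by
        intro p hp i h3
        have h4 := ncard_branch_two (hp.1 i)
        rw [h3] at h4
        exact absurd h4 (by decide) }
  exact main_rad hfg h hvan

end Pool.Agent.Work.MP_4329d7_ag_sq
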